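import Pool.Agent.T6.H74.BD.Dim

/-!
# Broadcasts in bipartite graphs with two poles
-/

set_option autoImplicit false

namespace Pool.Agent.T6.H74.BD

open Finset

/-- A bipartite graph with the sides `side`, such that `P` is adjacent to all vertices of the side
`true` and `Q` is adjacent to all vertices of the side `false`. -/
structure Poles {V : Type} (G : SimpleGraph V) (side : V → Bool) (P Q : V) : Prop where
  bip : ∀ x y, G.Adj x y → side x ≠ side y
  sP : side P = false
  sQ : side Q = true
  hP : ∀ v, side v = true → G.Adj P v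
  hQ : ∀ v, side v = false → G.Adj Q v

variable {V : Type} {G : SimpleGraph V} {side : V → Bool} {P Q : V}

theorem Poles.two (h : Poles G side P Q) {x z : V} (hxz : x ≠ z) (hs : side x = side z) :
    G.edist x z = 2 := by
  have h1 : G.edist x z ≤ 2 := by
    have hw : ∃ w, G.Adj x w ∧ G.Adj w z := by
      cases hx : side x with
      | false => exact ⟨Q, (h.hQ x hx).symm, h.hQ z (hs ▸ hx)⟩
      | true => exact ⟨P, (h.hP x hx).symm, h.hP z (hs ▸ hx)⟩
    obtain ⟨w, h1, h2⟩ := hw
    have := SimpleGraph.edist_triangle (G := G) (u := x) (v := w) (w := z)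
    rw [ed_adj h1, ed_adj h2] at this
    exact this.trans (by norm_num)
  have h2 : G.edist x z ≠ 0 := (SimpleGraph.edist_pos_of_ne hxz).ne'
  have h3 : G.edist x z ≠ 1 := fun h' => h.bip x z (SimpleGraph.edist_eq_one_iff_adj.1 h') hs
  generalize G.edist x z = e at h1 h2 h3
  induction e using ENat.recTopCoe with
  | top => simp at h1
  | coe n =>
    have h1' : n ≤ 2 := by exact_mod_cast h1
    have h2' : n ≠ 0 := by exact_mod_cast h2
    have h3' : n ≠ 1 := by exact_mod_cast h3
    have : n = 2 := by omega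
    rw [this]
    rfl

theorem Poles.le3 (h : Poles G side P Q) (x z : V) : G.edist x z ≤ 3 := by
  by_cases hxz : x = z
  · subst hxz; simp
  by_cases hs : side x = side z
  · rw [h.two hxz hs]; norm_num
  have hw : ∃ w w', G.Adj x w ∧ G.Adj w w' ∧ G.Adj w' z := by
    cases hx : side x with
    | false =>
      have hz : side z = true := by
        cases hz : side z with
        | false => exact absurd (hx.trans hz.symm) hs
        | true => rfl
      exact ⟨Q, P, (h.hQ x hx).symm, h.hQ P h.sP, h.hP z hz⟩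
    | true =>
      have hz : side z = false := by
        cases hz : side z with
        | true => exact absurd (hx.trans hz.symm) hs
        | false => rfl
      exact ⟨P, Q, (h.hP x hx).symm, h.hP Q h.sQ, h.hQ z hz⟩
  obtain ⟨w, w', h1, h2, h3⟩ := hw
  have e1 := SimpleGraph.edist_triangle (G := G) (u := x) (v := w) (w := z)
  have e2 := SimpleGraph.edist_triangle (G := G) (u := w) (v := w') (w := z)
  rw [ed_adj h2, ed_adj h3] at e2
  rw [ed_adj h1] at e1
  refine e1.trans ((add_le_add le_rfl e2).trans ?_)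
  norm_num

theorem Poles.three (h : Poles G side P Q) {x z : V} (hs : side x ≠ side z)
    (hadj : ¬ G.Adj x z) : G.edist x z = 3 := by
  have h1 := h.le3 x z
  have hxz : x ≠ z := fun h' => hs (by rw [h'])
  have h2 : G.edist x z ≠ 0 := (SimpleGraph.edist_pos_of_ne hxz).ne'
  have h3 : G.edist x z ≠ 1 := fun h' => hadj (SimpleGraph.edist_eq_one_iff_adj.1 h')
  have h4 : G.edist x z ≠ 2 := by
    intro h'
    have h5 : G.edist x z = ((2 : ℕ) : ℕ∞) := h'
    obtain ⟨p, hp⟩ := SimpleGraph.exists_walk_of_edist_eq_coe h5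
    have h6 : ∃ w, G.Adj x w ∧ G.Adj w z := by
      match p, hp with
      | .cons (v := w) a (.cons (v := _) b .nil), _ => exact ⟨w, a, b⟩
    obtain ⟨w, a, b⟩ := h6
    have c1 := h.bip _ _ a
    have c2 := h.bip _ _ b
    revert c1 c2 hs
    cases side x <;> cases side w <;> cases side z <;> decide
  generalize G.edist x z = e at h1 h2 h3 h4
  induction e using ENat.recTopCoe with
  | top => simp at h1
  | coe n =>
    have h1' : n ≤ 3 := by exact_mod_cast h1
    have h2' : n ≠ 0 := by exact_mod_cast h2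
    have h3' : n ≠ 1 := by exact_mod_cast h3
    have h4' : n ≠ 2 := by exact_mod_cast h4
    have : n = 3 := by omega
    rw [this]
    rfl

theorem Poles.sep (h : Poles G side P Q) {x y : V} (hs : side x = side y) (z : V) {i : ℕ}
    (hne : min (G.edist x z) ((i + 1 : ℕ) : ℕ∞) ≠ min (G.edist y z) ((i + 1 : ℕ) : ℕ∞)) :
    z = x ∨ z = y ∨ ¬ (G.Adj x z ↔ G.Adj y z) := by
  by_contra hcon
  push Not at hcon
  obtain ⟨h1, h2, h3⟩ := hcon
  apply hne
  have h4 : G.edist x z = G.edist y z := by
    by_cases h5 : side x = side z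
    · rw [h.two h1.symm h5, h.two h2.symm (hs ▸ h5)]
    · by_cases h6 : G.Adj x z
      · rw [ed_adj h6, ed_adj (h3.1 h6)]
      · rw [h.three h5 h6, h.three (hs ▸ h5) (fun h7 => h6 (h3.2 h7))]
  rw [h4]

open Classical in
theorem min_two (x z : V) : min (G.edist x z) 2 = if x = z then 0 else if G.Adj x z then 1 else 2 := by
  by_cases h1 : x = z
  · subst h1; simp
  by_cases h2 : G.Adj x z
  · rw [ed_adj h2]; simp [h1, h2]
  rw [if_neg h1, if_neg h2]
  have h3 : G.edist x z ≠ 0 := (SimpleGraph.edist_pos_of_ne h1).ne'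
  have h4 : G.edist x z ≠ 1 := fun h' => h2 (SimpleGraph.edist_eq_one_iff_adj.1 h')
  refine min_eq_right ?_
  generalize G.edist x z = e at h3 h4
  induction e using ENat.recTopCoe with
  | top => simp
  | coe n =>
    have h2' : n ≠ 0 := by exact_mod_cast h3
    have h3' : n ≠ 1 := by exact_mod_cast h4
    have : 2 ≤ n := by omega
    exact_mod_cast this

theorem sep_one {x y : V} (hxy : x ≠ y) (z : V)
    (h : z = x ∨ z = y ∨ ¬ (G.Adj x z ↔ G.Adj y z)) :
    min (G.edist x z) ((1 + 1 : ℕ) : ℕ∞) ≠ min (G.edist y z) ((1 + 1 : ℕ) : ℕ∞) := by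
  classical
  have e : ((1 + 1 : ℕ) : ℕ∞) = 2 := rfl
  rw [e, min_two, min_two]
  rcases h with rfl | rfl | h
  · rw [if_pos rfl, if_neg hxy.symm]
    split_ifs <;> simp
  · rw [if_pos rfl, if_neg hxy]
    split_ifs <;> simp
  · by_cases h1 : x = z
    · subst h1
      rw [if_pos rfl, if_neg hxy.symm]
      split_ifs <;> simp
    by_cases h2 : y = z
    · subst h2
      rw [if_pos rfl, if_neg hxy]
      split_ifs <;> simp
    by_cases h5 : G.Adj x z <;> by_cases h6 : G.Adj y z
    · exact absurd ⟨fun _ => h6, fun _ => h5⟩ h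
    · simp [h1, h2, h5, h6]
    · simp [h1, h2, h5, h6]
    · exact absurd ⟨fun h7 => absurd h7 h5, fun h7 => absurd h7 h6⟩ h

/-- `S` resolves all pairs of vertices of the same side by adjacency. -/
def ResS (G : SimpleGraph V) (side : V → Bool) (S : Finset V) : Prop :=
  ∀ x y : V, x ≠ y → side x = side y → ∃ z ∈ S, z = x ∨ z = y ∨ ¬ (G.Adj x z ↔ G.Adj y z)

theorem Poles.down [Fintype V] (h : Poles G side P Q) {t : ℕ}
    (hf : ∃ f : V → ℕ, Resolving G f ∧ ∑ v, f v ≤ t) :
    ∃ S : Finset V, S.card ≤ t ∧ ResS G side S := by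
  classical
  obtain ⟨f, hf, hs⟩ := hf
  refine ⟨Finset.univ.filter fun v => 0 < f v, ?_, ?_⟩
  · refine le_trans ?_ hs
    calc (Finset.univ.filter fun v => 0 < f v).card
        = ∑ v ∈ Finset.univ.filter (fun v => 0 < f v), 1 := by simp
      _ ≤ ∑ v ∈ Finset.univ.filter (fun v => 0 < f v), f v := by
          refine Finset.sum_le_sum fun v hv => ?_
          exact (Finset.mem_filter.1 hv).2
      _ ≤ ∑ v, f v := Finset.sum_le_sum_of_subset (Finset.filter_subset _ _)
  · intro x y hxy hside
    obtain ⟨z, hz, hne⟩ := hf x y hxy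
    exact ⟨z, by simp [hz], h.sep hside z hne⟩

theorem up [Fintype V] {t : ℕ} (hS : ∃ S : Finset V, S.card ≤ t ∧ Res G S) :
    ∃ f : V → ℕ, Resolving G f ∧ ∑ v, f v ≤ t := by
  classical
  obtain ⟨S, hS, hR⟩ := hS
  refine ⟨fun v => if v ∈ S then 1 else 0, ?_, by simpa using hS⟩
  intro x y hxy
  obtain ⟨z, hz, h⟩ := hR x y hxy
  refine ⟨z, by simp [hz], ?_⟩
  simp only [hz, if_true]
  exact sep_one hxy z h

end Pool.Agent.T6.H74.BD
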