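import Pool.Agent.T6.H74.BD.Comb
import Pool.Agent.T6.H74.BD.BDist

/-!
# The bipartite reduction

For each pair `q = (a, b)` of numbers at most `n` there are seven vertices: the twins `t`, `t'`
(kinds `0`, `1`) and the vertex `c` (kind `6`) on the first side and the twins `s`, `s'` (kinds
`2`, `3`) and the vertices `x`, `y` (kinds `4`, `5`) on the other side.
-/

set_option autoImplicit false
set_option linter.unusedSimpArgs false

namespace Pool.Agent.T6.H74.BD.Bip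

open Finset

/-- the adjacency between the first side and the second side -/
def nb (h : ℕ → ℕ → Bool) (n a b c a' b' c' : ℕ) : Bool :=
  (decide (c < 2) || decide (c = 6)) && ((decide (2 ≤ c') && decide (c' < 6)) &&
    ((decide (c = 6) && (decide (a = n) && decide (b = n))) ||
    ((decide (c' = 4) && (decide (a' = n) && decide (b' = n))) ||
    ((decide (c < 2) && (decide (c' < 4) && (decide (a = a') && decide (b = b')))) ||
    ((decide (c < 2) && (decide (4 ≤ c') && (!(decide (a = a') && decide (b = b')) &&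
      !(decide (a = n) && decide (b = n))))) ||
    ((decide (c < 2) && (decide (c' = 4) && ((decide (a = n) && decide (b = n)) &&
      !isE h n a' b'))) ||
    ((decide (c = 6) && (decide (c' < 4) && !(decide (a = a') && decide (b = b')))) ||
    (decide (c = 6) && (decide (c' = 4) && (isE h n a' b' && (decide (b = n) &&
      (decide (a = a') || decide (a = b')))))))))))))

/-- the vertices -/
abbrev X (n : ℕ) : Type := (Fin (n + 1) × Fin (n + 1)) × Fin 7

/-- the side of a vertex -/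
def side {n : ℕ} (v : X n) : Bool := decide (2 ≤ (v.2 : ℕ)) && decide ((v.2 : ℕ) < 6)

theorem nb_side {h : ℕ → ℕ → Bool} {n a b c a' b' c' : ℕ}
    (hh : nb h n a b c a' b' c' = true) :
    (decide (2 ≤ c) && decide (c < 6)) = false ∧ (decide (2 ≤ c') && decide (c' < 6)) = true := by
  unfold nb at hh
  rw [Bool.and_eq_true, Bool.and_eq_true] at hh
  refine ⟨?_, hh.2.1⟩
  have h1 := hh.1
  simp only [Bool.or_eq_true, decide_eq_true_eq] at h1
  rcases h1 with h1 | h1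
  · have : ¬ 2 ≤ c := by omega
    simp [this]
  · have : ¬ c < 6 := by omega
    simp [this]

/-- the new graph -/
def gg (h : ℕ → ℕ → Bool) (n : ℕ) : SimpleGraph (X n) where
  Adj u v := nb h n u.1.1 u.1.2 u.2 v.1.1 v.1.2 v.2 = true ∨
      nb h n v.1.1 v.1.2 v.2 u.1.1 u.1.2 u.2 = true
  symm := ⟨fun _ _ hh => Or.symm hh⟩
  loopless := ⟨by
    intro u hh
    have h1 : nb h n u.1.1 u.1.2 u.2 u.1.1 u.1.2 u.2 = true := hh.elim id id
    have h2 := nb_side h1
    rw [h2.1] at h2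
    exact absurd h2.2 (by decide)⟩

variable {h : ℕ → ℕ → Bool} {n : ℕ}

theorem bip (u v : X n) (huv : (gg h n).Adj u v) : side u ≠ side v := by
  unfold side
  rcases huv with h1 | h1
  · have h2 := nb_side h1
    rw [h2.1, h2.2]
    decide
  · have h2 := nb_side h1
    rw [h2.1, h2.2]
    decide

theorem fin7 (c : Fin 7) : c = 0 ∨ c = 1 ∨ c = 2 ∨ c = 3 ∨ c = 4 ∨ c = 5 ∨ c = 6 := by
  fin_cases c <;> simp

theorem v0 : ((0 : Fin 7) : ℕ) = 0 := rfl
theorem v1 : ((1 : Fin 7) : ℕ) = 1 := rfl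
theorem v2 : ((2 : Fin 7) : ℕ) = 2 := rfl
theorem v3 : ((3 : Fin 7) : ℕ) = 3 := rfl
theorem v4 : ((4 : Fin 7) : ℕ) = 4 := rfl
theorem v5 : ((5 : Fin 7) : ℕ) = 5 := rfl
theorem v6 : ((6 : Fin 7) : ℕ) = 6 := rfl

theorem ts (q r : Fin (n + 1) × Fin (n + 1)) {c d : Fin 7} (hc : c = 0 ∨ c = 1)
    (hd : d = 2 ∨ d = 3) : (gg h n).Adj (q, c) (r, d) ↔ q = r := by
  change nb _ _ _ _ _ _ _ _ = true ∨ nb _ _ _ _ _ _ _ _ = true ↔ _
  rw [eq_iff]
  rcases hc with rfl | rfl <;> rcases hd with rfl | rfl <;> simp [nb, v0, v1, v2, v3]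

theorem tx (q r : Fin (n + 1) × Fin (n + 1)) {c : Fin 7} (hc : c = 0 ∨ c = 1) :
    (gg h n).Adj (q, c) (r, 4) ↔ r = st n ∨ (q ≠ st n ∧ q ≠ r) ∨ (q = st n ∧ ¬ Ed h n r) := by
  change nb _ _ _ _ _ _ _ _ = true ∨ nb _ _ _ _ _ _ _ _ = true ↔ _
  unfold Ed
  rw [ne_eq, ne_eq, st_iff, st_iff, eq_iff]
  rcases hc with rfl | rfl <;> simp [nb, v0, v1, v4] <;> tauto

theorem ty (q r : Fin (n + 1) × Fin (n + 1)) {c : Fin 7} (hc : c = 0 ∨ c = 1) :
    (gg h n).Adj (q, c) (r, 5) ↔ q ≠ st n ∧ q ≠ r := by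
  change nb _ _ _ _ _ _ _ _ = true ∨ nb _ _ _ _ _ _ _ _ = true ↔ _
  rw [ne_eq, ne_eq, st_iff, eq_iff]
  rcases hc with rfl | rfl <;> simp [nb, v0, v1, v5] <;> tauto

theorem cs (q r : Fin (n + 1) × Fin (n + 1)) {d : Fin 7} (hd : d = 2 ∨ d = 3) :
    (gg h n).Adj (q, 6) (r, d) ↔ q = st n ∨ q ≠ r := by
  change nb _ _ _ _ _ _ _ _ = true ∨ nb _ _ _ _ _ _ _ _ = true ↔ _
  rw [ne_eq, st_iff, eq_iff]
  rcases hd with rfl | rfl <;> simp [nb, v2, v3, v6] <;> tauto

theorem cx (q r : Fin (n + 1) × Fin (n + 1)) :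
    (gg h n).Adj (q, 6) (r, 4) ↔ q = st n ∨ r = st n ∨
      (Ed h n r ∧ (q.2 : ℕ) = n ∧ ((q.1 : ℕ) = r.1 ∨ (q.1 : ℕ) = r.2)) := by
  change nb _ _ _ _ _ _ _ _ = true ∨ nb _ _ _ _ _ _ _ _ = true ↔ _
  unfold Ed
  rw [st_iff, st_iff]
  simp [nb, v4, v6]

theorem cy (q r : Fin (n + 1) × Fin (n + 1)) :
    (gg h n).Adj (q, 6) (r, 5) ↔ q = st n := by
  change nb _ _ _ _ _ _ _ _ = true ∨ nb _ _ _ _ _ _ _ _ = true ↔ _
  rw [st_iff]
  simp [nb, v5, v6]

theorem poles : Poles (gg h n) side (st n, 6) (st n, 4) where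
  bip := bip
  sP := rfl
  sQ := rfl
  hP := by
    rintro ⟨q, c⟩ hc
    rcases fin7 c with rfl | rfl | rfl | rfl | rfl | rfl | rfl
    · exact (Bool.false_ne_true hc).elim
    · exact (Bool.false_ne_true hc).elim
    · exact (cs _ _ (Or.inl rfl)).2 (Or.inl rfl)
    · exact (cs _ _ (Or.inr rfl)).2 (Or.inl rfl)
    · exact (cx _ _).2 (Or.inl rfl)
    · exact (cy _ _).2 rfl
    · exact (Bool.false_ne_true hc).elim
  hQ := by
    rintro ⟨q, c⟩ hc
    rcases fin7 c with rfl | rfl | rfl | rfl | rfl | rfl | rfl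
    · exact ((tx _ _ (Or.inl rfl)).2 (Or.inl rfl)).symm
    · exact ((tx _ _ (Or.inr rfl)).2 (Or.inl rfl)).symm
    · exact (Bool.false_ne_true hc.symm).elim
    · exact (Bool.false_ne_true hc.symm).elim
    · exact (Bool.false_ne_true hc.symm).elim
    · exact (Bool.false_ne_true hc.symm).elim
    · exact ((cx _ _).2 (Or.inr (Or.inl rfl))).symm

/-- `x` and `y` are resolved by `S` -/
def Sep (h : ℕ → ℕ → Bool) (n : ℕ) (S : Finset (X n)) (x y : X n) : Prop :=
  ∃ z ∈ S, z = x ∨ z = y ∨ ¬ ((gg h n).Adj x z ↔ (gg h n).Adj y z)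

theorem Sep.symm {S : Finset (X n)} {x y : X n} (hs : Sep h n S x y) : Sep h n S y x := by
  obtain ⟨z, hz, h1 | h1 | h1⟩ := hs
  · exact ⟨z, hz, Or.inr (Or.inl h1)⟩
  · exact ⟨z, hz, Or.inl h1⟩
  · exact ⟨z, hz, Or.inr (Or.inr fun h2 => h1 h2.symm)⟩

theorem Sep.mk1 {S : Finset (X n)} {x y z : X n} (hz : z ∈ S) (h1 : (gg h n).Adj x z)
    (h2 : ¬ (gg h n).Adj y z) : Sep h n S x y :=
  ⟨z, hz, Or.inr (Or.inr fun h3 => h2 (h3.1 h1))⟩

theorem res_of (hn : 1 ≤ n) {S : Finset (X n)} (hT : ∀ q, (q, 0) ∈ S) (hS : ∀ q, (q, 2) ∈ S)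
    (hC : ∀ q, Ed h n q → ∃ z ∈ S, (gg h n).Adj (q, 4) z ∧ ¬ (gg h n).Adj (q, 5) z) :
    Res (gg h n) S := by
  have s0 : ∀ q y, Sep h n S (q, 0) y := fun q y => ⟨_, hT q, Or.inl rfl⟩
  have s2 : ∀ q y, Sep h n S (q, 2) y := fun q y => ⟨_, hS q, Or.inl rfl⟩
  -- vertices of the second side have a neighbour of kind `0`
  have nbr : ∀ v : X n, side v = true → ∃ q, (gg h n).Adj v (q, 0) := by
    rintro ⟨r, d⟩ hd
    obtain ⟨p, h1, h2, _⟩ := ex3 hn r (st n) r
    rcases fin7 d with rfl | rfl | rfl | rfl | rfl | rfl | rfl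
    · exact (Bool.false_ne_true hd).elim
    · exact (Bool.false_ne_true hd).elim
    · exact ⟨r, ((ts r r (Or.inl rfl) (Or.inl rfl)).2 rfl).symm⟩
    · exact ⟨r, ((ts r r (Or.inl rfl) (Or.inr rfl)).2 rfl).symm⟩
    · exact ⟨p, ((tx p r (Or.inl rfl)).2 (Or.inr (Or.inl ⟨h2, h1⟩))).symm⟩
    · exact ⟨p, ((ty p r (Or.inl rfl)).2 ⟨h2, h1⟩).symm⟩
    · exact (Bool.false_ne_true hd).elim
  have cross1 : ∀ u v : X n, side u = false → side v = true → Sep h n S v u := by
    intro u v hu hv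
    obtain ⟨q, hq⟩ := nbr v hv
    refine Sep.mk1 (hT q) hq fun h1 => bip _ _ h1 ?_
    rw [hu]; rfl
  have cross : ∀ u v : X n, side u ≠ side v → Sep h n S u v := by
    intro u v huv
    cases hu : side u with
    | false =>
      cases hv : side v with
      | false => exact absurd (hu.trans hv.symm) huv
      | true => exact (cross1 u v hu hv).symm
    | true =>
      cases hv : side v with
      | true => exact absurd (hu.trans hv.symm) huv
      | false => exact cross1 v u hv hu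
  have cross' : ∀ (q r : Fin (n + 1) × Fin (n + 1)) (c d : Fin 7),
      (decide (2 ≤ (c : ℕ)) && decide ((c : ℕ) < 6)) ≠
        (decide (2 ≤ (d : ℕ)) && decide ((d : ℕ) < 6)) → Sep h n S (q, c) (r, d) :=
    fun q r c d hcd => cross _ _ hcd
  -- first side
  have s11 : ∀ q r, q ≠ r → Sep h n S (q, 1) (r, 1) := fun q r hqr =>
    Sep.mk1 (hS q) ((ts q q (Or.inr rfl) (Or.inl rfl)).2 rfl)
      (fun h1 => hqr ((ts r q (Or.inr rfl) (Or.inl rfl)).1 h1).symm)
  have s16 : ∀ q r, Sep h n S (q, 1) (r, 6) := by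
    intro q r
    obtain ⟨p, h1, h2, _⟩ := ex3 hn q r q
    exact (Sep.mk1 (hS p) ((cs r p (Or.inl rfl)).2 (Or.inr h2.symm))
      (fun h3 => h1 ((ts q p (Or.inr rfl) (Or.inl rfl)).1 h3).symm)).symm
  have s66' : ∀ q r, q ≠ r → q ≠ st n → Sep h n S (r, 6) (q, 6) := by
    intro q r hqr hq
    refine Sep.mk1 (hS q) ((cs r q (Or.inl rfl)).2 (Or.inr hqr.symm)) ?_
    rw [cs q q (Or.inl rfl)]
    rintro (h1 | h1)
    · exact hq h1
    · exact h1 rfl
  have s66 : ∀ q r, q ≠ r → Sep h n S (q, 6) (r, 6) := by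
    intro q r hqr
    by_cases hq : q = st n
    · exact s66' r q hqr.symm (fun hr => hqr (hq.trans hr.symm))
    · exact (s66' q r hqr hq).symm
  -- second side
  have s33 : ∀ q r, q ≠ r → Sep h n S (q, 3) (r, 3) := fun q r hqr =>
    Sep.mk1 (hT q) ((ts q q (Or.inl rfl) (Or.inr rfl)).2 rfl).symm
      (fun h1 => hqr ((ts q r (Or.inl rfl) (Or.inr rfl)).1 h1.symm))
  have xy1 : ∀ q r (d : Fin 7), d = 4 ∨ d = 5 → q ≠ st n → q ≠ r →
      (gg h n).Adj (r, d) (q, 0) := by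
    rintro q r d (rfl | rfl) h1 h2
    · exact ((tx q r (Or.inl rfl)).2 (Or.inr (Or.inl ⟨h1, h2⟩))).symm
    · exact ((ty q r (Or.inl rfl)).2 ⟨h1, h2⟩).symm
  have xy2 : ∀ r (d : Fin 7), d = 4 ∨ d = 5 → r ≠ st n → ¬ (gg h n).Adj (r, d) (r, 0) := by
    rintro r d (rfl | rfl) h1 h2
    · rcases (tx r r (Or.inl rfl)).1 h2.symm with h3 | h3 | h3
      · exact h1 h3
      · exact h3.2 rfl
      · exact h1 h3.1
    · exact ((ty r r (Or.inl rfl)).1 h2.symm).2 rfl
  have s3x : ∀ q r (d : Fin 7), d = 4 ∨ d = 5 → Sep h n S (q, 3) (r, d) := by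
    intro q r d hd
    obtain ⟨p, h1, h2, h3⟩ := ex3 hn q r (st n)
    exact (Sep.mk1 (hT p) (xy1 p r d hd h3 h2)
      (fun h4 => h1 ((ts p q (Or.inl rfl) (Or.inr rfl)).1 h4.symm))).symm
  have sxx' : ∀ q r (c d : Fin 7), c = 4 ∨ c = 5 → d = 4 ∨ d = 5 → q ≠ r → q ≠ st n →
      Sep h n S (r, d) (q, c) := by
    intro q r c d hc hd hqr hq
    exact Sep.mk1 (hT q) (xy1 q r d hd hq hqr) (xy2 q c hc hq)
  have sxx : ∀ q r (c d : Fin 7), c = 4 ∨ c = 5 → d = 4 ∨ d = 5 → q ≠ r →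
      Sep h n S (q, c) (r, d) := by
    intro q r c d hc hd hqr
    by_cases hq : q = st n
    · exact sxx' r q d c hd hc hqr.symm (fun hr => hqr (hq.trans hr.symm))
    · exact (sxx' q r c d hc hd hqr hq).symm
  have s45 : ∀ q, Sep h n S (q, 4) (q, 5) := by
    intro q
    by_cases hq : Ed h n q
    · obtain ⟨z, hz, h1, h2⟩ := hC q hq
      exact Sep.mk1 hz h1 h2
    · refine Sep.mk1 (hT (st n)) ((tx (st n) q (Or.inl rfl)).2 (Or.inr (Or.inr ⟨rfl, hq⟩))).symm ?_
      intro hh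
      exact ((ty (st n) q (Or.inl rfl)).1 hh.symm).1 rfl
  have key : ∀ x y : X n, x ≠ y → Sep h n S x y := by
    rintro ⟨q, c⟩ ⟨r, d⟩ hxy
    by_cases hqr : q = r
    · subst hqr
      have hcd : c ≠ d := fun hcd => hxy (by rw [hcd])
      rcases fin7 c with rfl | rfl | rfl | rfl | rfl | rfl | rfl <;>
      rcases fin7 d with rfl | rfl | rfl | rfl | rfl | rfl | rfl <;>
        first
        | exact absurd rfl hcd
        | exact s0 q _
        | exact (s0 q _).symm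
        | exact s2 q _
        | exact (s2 q _).symm
        | exact cross' _ _ _ _ (by decide)
        | exact s16 q q
        | exact (s16 q q).symm
        | exact s3x q q _ (Or.inl rfl)
        | exact s3x q q _ (Or.inr rfl)
        | exact (s3x q q _ (Or.inl rfl)).symm
        | exact (s3x q q _ (Or.inr rfl)).symm
        | exact s45 q
        | exact (s45 q).symm
    · rcases fin7 c with rfl | rfl | rfl | rfl | rfl | rfl | rfl <;>
      rcases fin7 d with rfl | rfl | rfl | rfl | rfl | rfl | rfl <;>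
        first
        | exact s0 q _
        | exact (s0 r _).symm
        | exact s2 q _
        | exact (s2 r _).symm
        | exact s11 q r hqr
        | exact s33 q r hqr
        | exact s66 q r hqr
        | exact s16 q r
        | exact (s16 r q).symm
        | exact s3x q r _ (Or.inl rfl)
        | exact s3x q r _ (Or.inr rfl)
        | exact (s3x r q _ (Or.inl rfl)).symm
        | exact (s3x r q _ (Or.inr rfl)).symm
        | exact sxx q r _ _ (Or.inl rfl) (Or.inl rfl) hqr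
        | exact sxx q r _ _ (Or.inl rfl) (Or.inr rfl) hqr
        | exact sxx q r _ _ (Or.inr rfl) (Or.inl rfl) hqr
        | exact sxx q r _ _ (Or.inr rfl) (Or.inr rfl) hqr
        | exact cross' _ _ _ _ (by decide)
  exact key

end Pool.Agent.T6.H74.BD.Bip
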