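import Pool.Agent.T6.H74.BD.BRed
import Pool.Agent.H569R2.Approx

/-!
# Computing the broadcast dimension
-/

set_option autoImplicit false

namespace Pool.Agent.T6.H74.BD.Bip

open Pool.Agent.NPC Pool.Agent.H692R2 Pool.Agent.NPC.R542

/-- compare a number given by its code with a number -/
def cmp (x : List Bool) (t : ℕ) : Bool :=
  match unbits ℕ x with
  | none => false
  | some m => decide (m ≤ t)

theorem cmp_bits (m t : ℕ) : cmp (bits m) t = decide (m ≤ t) := by
  unfold cmp
  rw [unbits_bits]

theorem poly_cmp : NPC.Poly (fun p : List Bool × ℕ => cmp p.1 p.2) := by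
  have h1 : NPC.Poly (fun p : List Bool × ℕ => unbits ℕ p.1) :=
    poly_unbits.comp (NPC.Poly.fst NPC.Poly.id)
  have h2 : NPC.Poly (fun p : (List Bool × ℕ) × ℕ => decide (p.2 ≤ p.1.2)) :=
    NPC.Poly.decide_le (NPC.Poly.snd NPC.Poly.id) (NPC.Poly.snd (NPC.Poly.fst NPC.Poly.id))
  refine PC.congr (NPC.Poly.optCases (o := fun p : List Bool × ℕ => unbits ℕ p.1)
    (g := fun _ => false) (h := fun p m => decide (m ≤ p.2)) h1 (NPC.Poly.const false) h2)
    fun p => ?_
  unfold cmp
  cases unbits ℕ p.1 <;> rfl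

/-- A polynomial-time algorithm that computes the broadcast dimension of connected bipartite graphs
with all distances at most `3` would give `P = NP`. -/
theorem compute (V : List Bool → List Bool) (hV : PolyTime V)
    (h : ∀ G : FinGraph, Good G → V (bits G) = bits (bdim G.graph)) :
    ∀ L : Set (List Bool), InNP L → InP L := by
  have h1 : NPC.Poly (fun I : FinGraph × ℕ => V (bits I.1)) :=
    (H569R2.poly_of_polyTime hV).comp (H569R2.poly_bits.comp (NPC.Poly.fst NPC.Poly.id))
  have h2 : NPC.Poly (fun I : FinGraph × ℕ => cmp (V (bits I.1)) I.2) :=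
    poly_cmp.comp (NPC.Poly.pair h1 (NPC.Poly.snd NPC.Poly.id))
  refine hardPr.collapse h2 fun I hI => ?_
  rw [h I.1 hI, cmp_bits, decide_eq_true_eq]
  rfl

end Pool.Agent.T6.H74.BD.Bip
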