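import Pool.Agent.T6.H74.BD.BComb

/-!
# Resolving sets of the bipartite graph and independent sets of the old graph
-/

set_option autoImplicit false
set_option linter.unusedSimpArgs false

namespace Pool.Agent.T6.H74.BD.Bip

open Finset

variable {h : ℕ → ℕ → Bool} {n : ℕ}

theorem twins0 (q : Fin (n + 1) × Fin (n + 1)) (z : X n) :
    (gg h n).Adj (q, 0) z ↔ (gg h n).Adj (q, 1) z := by
  have e1 : side ((q, 0) : X n) = false := rfl
  have e2 : side ((q, 1) : X n) = false := rfl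
  rcases z with ⟨r, d⟩
  have hf : side ((r, d) : X n) = false → ((gg h n).Adj (q, 0) (r, d) ↔
      (gg h n).Adj (q, 1) (r, d)) := fun hs =>
    ⟨fun h1 => absurd (e1.trans hs.symm) (bip _ _ h1),
      fun h1 => absurd (e2.trans hs.symm) (bip _ _ h1)⟩
  rcases fin7 d with rfl | rfl | rfl | rfl | rfl | rfl | rfl
  · exact hf rfl
  · exact hf rfl
  · rw [ts q r (Or.inl rfl) (Or.inl rfl), ts q r (Or.inr rfl) (Or.inl rfl)]
  · rw [ts q r (Or.inl rfl) (Or.inr rfl), ts q r (Or.inr rfl) (Or.inr rfl)]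
  · rw [tx q r (Or.inl rfl), tx q r (Or.inr rfl)]
  · rw [ty q r (Or.inl rfl), ty q r (Or.inr rfl)]
  · exact hf rfl

theorem twins2 (q : Fin (n + 1) × Fin (n + 1)) (z : X n) :
    (gg h n).Adj (q, 2) z ↔ (gg h n).Adj (q, 3) z := by
  have e1 : side ((q, 2) : X n) = true := rfl
  have e2 : side ((q, 3) : X n) = true := rfl
  rcases z with ⟨r, d⟩
  have hf : side ((r, d) : X n) = true → ((gg h n).Adj (q, 2) (r, d) ↔
      (gg h n).Adj (q, 3) (r, d)) := fun hs =>
    ⟨fun h1 => absurd (e1.trans hs.symm) (bip _ _ h1),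
      fun h1 => absurd (e2.trans hs.symm) (bip _ _ h1)⟩
  rcases fin7 d with rfl | rfl | rfl | rfl | rfl | rfl | rfl
  · rw [(gg h n).adj_comm, ts r q (Or.inl rfl) (Or.inl rfl), (gg h n).adj_comm,
      ts r q (Or.inl rfl) (Or.inr rfl)]
  · rw [(gg h n).adj_comm, ts r q (Or.inr rfl) (Or.inl rfl), (gg h n).adj_comm,
      ts r q (Or.inr rfl) (Or.inr rfl)]
  · exact hf rfl
  · exact hf rfl
  · exact hf rfl
  · exact hf rfl
  · rw [(gg h n).adj_comm, cs r q (Or.inl rfl), (gg h n).adj_comm, cs r q (Or.inr rfl)]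

theorem ends (q : Fin (n + 1) × Fin (n + 1)) (hq : Ed h n q) (z : X n)
    (hz : ¬ ((gg h n).Adj (q, 4) z ↔ (gg h n).Adj (q, 5) z)) :
    ∃ r : Fin (n + 1) × Fin (n + 1), z = (r, 6) ∧ ((r.1 : ℕ) = q.1 ∨ (r.1 : ℕ) = q.2) := by
  have e1 : side ((q, 4) : X n) = true := rfl
  have e2 : side ((q, 5) : X n) = true := rfl
  have hqs : q ≠ st n := by
    intro h1
    have h2 := (st_iff q).1 h1
    unfold Ed isE at hq
    simp only [Bool.and_eq_true, decide_eq_true_eq] at hq
    omega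
  rcases z with ⟨r, d⟩
  have hf : side ((r, d) : X n) = true → ((gg h n).Adj (q, 4) (r, d) ↔
      (gg h n).Adj (q, 5) (r, d)) := fun hs =>
    ⟨fun h1 => absurd (e1.trans hs.symm) (bip _ _ h1),
      fun h1 => absurd (e2.trans hs.symm) (bip _ _ h1)⟩
  have ht : ∀ c : Fin 7, c = 0 ∨ c = 1 → ((gg h n).Adj (q, 4) (r, c) ↔
      (gg h n).Adj (q, 5) (r, c)) := by
    intro c hc
    rw [(gg h n).adj_comm, tx r q hc, (gg h n).adj_comm, ty r q hc]
    tauto
  rcases fin7 d with rfl | rfl | rfl | rfl | rfl | rfl | rfl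
  · exact absurd (ht _ (Or.inl rfl)) hz
  · exact absurd (ht _ (Or.inr rfl)) hz
  · exact absurd (hf rfl) hz
  · exact absurd (hf rfl) hz
  · exact absurd (hf rfl) hz
  · exact absurd (hf rfl) hz
  · rw [(gg h n).adj_comm, cx r q, (gg h n).adj_comm, cy r q] at hz
    refine ⟨r, rfl, ?_⟩
    tauto

/-- the vertex of the old graph of a vertex of the new graph -/
def back (hn : 1 ≤ n) (v : X n) : Fin n :=
  if hq : (v.1.1 : ℕ) < n then ⟨v.1.1, hq⟩ else ⟨0, hn⟩

theorem back_eq (hn : 1 ≤ n) (q : Fin (n + 1) × Fin (n + 1)) (c : Fin 7) (a : Fin n)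
    (ha : (q.1 : ℕ) = a) : back hn (q, c) = a := by
  have h1 : (q.1 : ℕ) < n := by rw [ha]; exact a.2
  unfold back
  simp only [h1, dif_pos]
  exact Fin.ext ha

/-- not one of the twins -/
def Ordi (v : X n) : Prop := 4 ≤ (v.2 : ℕ)

theorem down (H : SimpleGraph (Fin n)) (hH : ∀ i j : Fin n, h i j = true ↔ H.Adj i j)
    (hn : 1 ≤ n) (k : ℕ) (hk : k ≤ n) (hS : ∃ S : Finset (X n),
      S.card ≤ 2 * ((n + 1) * (n + 1)) + (n - k) ∧ ResS (gg h n) side S) :
      ∃ A : Finset (Fin n), H.IsIndepSet (A : Set (Fin n)) ∧ k ≤ A.card := by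
  classical
  obtain ⟨S, hS, hR⟩ := hS
  -- one of the twins
  have h1 : ∀ qb : (Fin (n + 1) × Fin (n + 1)) × Bool, ∃ z ∈ S,
      z = (qb.1, if qb.2 then 0 else 2) ∨ z = (qb.1, if qb.2 then 1 else 3) := by
    rintro ⟨q, b⟩
    cases b with
    | true =>
      obtain ⟨z, hz, h1⟩ := hR (q, 0) (q, 1) (by simp) rfl
      refine ⟨z, hz, ?_⟩
      rcases h1 with h1 | h1 | h1
      · exact Or.inl h1
      · exact Or.inr h1
      · exact absurd (twins0 q z) h1
    | false =>
      obtain ⟨z, hz, h1⟩ := hR (q, 2) (q, 3) (by simp) rfl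
      refine ⟨z, hz, ?_⟩
      rcases h1 with h1 | h1 | h1
      · exact Or.inl h1
      · exact Or.inr h1
      · exact absurd (twins2 q z) h1
  choose f hf hf2 using h1
  have hinj : Function.Injective f := by
    rintro ⟨q, b⟩ ⟨r, c⟩ hqr
    have e1 := hf2 (q, b)
    have e2 := hf2 (r, c)
    rw [hqr] at e1
    rcases e1 with e1 | e1 <;> rcases e2 with e2 | e2 <;> rw [e1] at e2 <;>
      cases b <;> cases c <;> simp at e2 <;> simp [e2]
  have hcard1 : 2 * ((n + 1) * (n + 1)) ≤ (S.filter fun z => ¬ Ordi z).card := by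
    have h2 : (Finset.univ.image f).card = 2 * ((n + 1) * (n + 1)) := by
      rw [Finset.card_image_of_injective _ hinj, Finset.card_univ, Fintype.card_prod,
        Fintype.card_prod, Fintype.card_fin, Fintype.card_bool]
      ring
    rw [← h2]
    refine Finset.card_le_card ?_
    intro z hz
    obtain ⟨⟨q, b⟩, _, rfl⟩ := Finset.mem_image.1 hz
    refine Finset.mem_filter.2 ⟨hf _, ?_⟩
    rcases hf2 (q, b) with h3 | h3 <;> rw [h3] <;> cases b <;> simp [Ordi, v0, v1, v2, v3]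
  have hcard2 := Finset.card_filter_add_card_filter_not (s := S) (fun z : X n => Ordi z)
  have hcard3 : (S.filter fun z => Ordi z).card ≤ n - k := by omega
  let C : Finset (Fin n) := (S.filter fun z => Ordi z).image (back hn)
  have hC : C.card ≤ n - k := Finset.card_image_le.trans hcard3
  refine ⟨Finset.univ \ C, ?_, ?_⟩
  · intro a ha b hb hab hadj
    have ha' : a ∉ C := by simpa using ha
    have hb' : b ∉ C := by simpa using hb
    have hq : Ed h n (a.castSucc, b.castSucc) := by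
      unfold Ed isE
      simp [(hH a b).2 hadj]
    obtain ⟨z, hz, h1⟩ := hR ((a.castSucc, b.castSucc), 4) ((a.castSucc, b.castSucc), 5)
      (by simp) rfl
    have hmem : ∀ q : Fin (n + 1) × Fin (n + 1), ∀ c : Fin 7, 4 ≤ (c : ℕ) → z = (q, c) →
        ∀ x : Fin n, (q.1 : ℕ) = x → x ∈ C := by
      intro q c hc hzq x hx
      refine Finset.mem_image.2 ⟨z, Finset.mem_filter.2 ⟨hz, ?_⟩, ?_⟩
      · rw [hzq]; exact hc
      · rw [hzq]; exact back_eq hn q c x hx
    rcases h1 with h1 | h1 | h1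
    · exact ha' (hmem _ 4 (by decide) h1 a rfl)
    · exact ha' (hmem _ 5 (by decide) h1 a rfl)
    · obtain ⟨r, hr, hr2 | hr2⟩ := ends _ hq z h1
      · exact ha' (hmem r 6 (by decide) hr a hr2)
      · exact hb' (hmem r 6 (by decide) hr b hr2)
  · rw [Finset.card_sdiff_of_subset (Finset.subset_univ _), Finset.card_univ, Fintype.card_fin]
    omega

theorem upR (H : SimpleGraph (Fin n)) (hH : ∀ i j : Fin n, h i j = true ↔ H.Adj i j)
    (hn : 1 ≤ n) (k : ℕ)
    (hS : ∃ A : Finset (Fin n), H.IsIndepSet (A : Set (Fin n)) ∧ k ≤ A.card) :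
    ∃ S : Finset (X n), S.card ≤ 2 * ((n + 1) * (n + 1)) + (n - k) ∧ Res (gg h n) S := by
  classical
  obtain ⟨A, hA, hk2⟩ := hS
  refine ⟨(Finset.univ : Finset (Fin (n + 1) × Fin (n + 1))).image (fun q => (q, 0)) ∪
    ((Finset.univ : Finset (Fin (n + 1) × Fin (n + 1))).image (fun q => (q, 2)) ∪
    (Finset.univ \ A).image (fun a => ((a.castSucc, Fin.last n), 6))), ?_, ?_⟩
  · have c1 : ∀ c : Fin 7, ((Finset.univ : Finset (Fin (n + 1) × Fin (n + 1))).image
        (fun q => (q, c))).card ≤ (n + 1) * (n + 1) := by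
      intro c
      refine Finset.card_image_le.trans ?_
      rw [Finset.card_univ, Fintype.card_prod, Fintype.card_fin]
    have c2 : ((Finset.univ \ A).image
        (fun a : Fin n => ((a.castSucc, Fin.last n), (6 : Fin 7)))).card ≤ n - k := by
      refine Finset.card_image_le.trans ?_
      rw [Finset.card_sdiff_of_subset (Finset.subset_univ _), Finset.card_univ,
        Fintype.card_fin]
      omega
    have c3 := c1 0
    have c4 := c1 2
    refine (Finset.card_union_le _ _).trans ((add_le_add c3 ((Finset.card_union_le _ _).trans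
      (add_le_add c4 c2))).trans ?_)
    omega
  · refine res_of hn (fun q => Finset.mem_union_left _ (Finset.mem_image.2 ⟨q, by simp, rfl⟩))
      (fun q => Finset.mem_union_right _ (Finset.mem_union_left _
        (Finset.mem_image.2 ⟨q, by simp, rfl⟩))) ?_
    rintro ⟨a, b⟩ hq
    have hq' := hq
    unfold Ed isE at hq'
    simp only [Bool.and_eq_true, decide_eq_true_eq] at hq'
    obtain ⟨ha, hb, hab⟩ := hq'
    have hadj : H.Adj ⟨a, ha⟩ ⟨b, hb⟩ := (hH ⟨a, ha⟩ ⟨b, hb⟩).1 hab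
    have hor : (⟨a, ha⟩ : Fin n) ∉ A ∨ (⟨b, hb⟩ : Fin n) ∉ A := by
      by_contra hcon
      push Not at hcon
      exact hA hcon.1 hcon.2 hadj.ne hadj
    have hex : ∃ x : Fin n, x ∉ A ∧ ((x : ℕ) = a ∨ (x : ℕ) = b) := by
      rcases hor with h1 | h1
      · exact ⟨_, h1, Or.inl rfl⟩
      · exact ⟨_, h1, Or.inr rfl⟩
    obtain ⟨x, hx, hx2⟩ := hex
    refine ⟨((x.castSucc, Fin.last n), 6), Finset.mem_union_right _ (Finset.mem_union_right _
      (Finset.mem_image.2 ⟨x, by simp [hx], rfl⟩)), ?_, ?_⟩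
    · rw [(gg h n).adj_comm, cx]
      exact Or.inr (Or.inr ⟨hq, by simp, by simpa using hx2⟩)
    · rw [(gg h n).adj_comm, cy, st_iff]
      intro h1
      have := x.2
      simp at h1
      omega

theorem spec (H : SimpleGraph (Fin n)) (hH : ∀ i j : Fin n, h i j = true ↔ H.Adj i j)
    (hn : 1 ≤ n) (k : ℕ) (hk : k ≤ n) :
    (∃ f : X n → ℕ, Resolving (gg h n) f ∧ ∑ v, f v ≤ 2 * ((n + 1) * (n + 1)) + (n - k)) ↔
      ∃ A : Finset (Fin n), H.IsIndepSet (A : Set (Fin n)) ∧ k ≤ A.card :=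
  ⟨fun hh => down H hH hn k hk (poles.down hh), fun hh => up (upR H hH hn k hh)⟩

end Pool.Agent.T6.H74.BD.Bip
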