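import Pool.Agent.T6.H74.BD.Comb
import Pool.Agent.R542.Base

/-!
# Broadcast dimension: NP-hardness
-/

set_option autoImplicit false

namespace Pool.Agent.T6.H74.BD

open Pool.Agent.NPC Pool.Agent.H692R2 Pool.Agent.NPC.R542

/-- The instances `(G, t)` such that the broadcast dimension of `G` is at most `t`. -/
def BroadcastDim (I : FinGraph × ℕ) : Prop := bdim I.1.graph ≤ I.2

/-- The graph has a vertex adjacent to all other vertices. -/
def HasUniversal (G : FinGraph) : Prop := ∃ w : Fin G.n, ∀ v, v ≠ w → G.graph.Adj w v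

/-- the order of the new graph -/
abbrev M (n : ℕ) : ℕ := (n + 1) * (n + 1) * 4

/-- numbering of the vertices -/
def eqv (n : ℕ) : Fin (M n + 1) ≃ X n :=
  finSuccEquivLast.trans (Equiv.optionCongr
    ((finProdFinEquiv (m := (n + 1) * (n + 1)) (n := 4)).symm.trans
      (Equiv.prodCongr (finProdFinEquiv (m := n + 1) (n := n + 1)).symm (Equiv.refl _))))

/-- the new graph -/
def bg (n : ℕ) (H : ℕ → ℕ → Bool) : SimpleGraph (Fin (M n + 1)) :=
  (gg H n).comap (eqv n)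

/-- the adjacency in one direction -/
noncomputable def nn (H : FinGraph) (x y : ℕ) : Bool :=
  nb (adjB H) H.n (x / 4 / (H.n + 1)) (x / 4 % (H.n + 1)) (x % 4)
    (y / 4 / (H.n + 1)) (y / 4 % (H.n + 1)) (y % 4)

/-- the adjacency bit of the new graph -/
noncomputable def bb (H : FinGraph) (x y : ℕ) : Bool :=
  (xor (decide (x = M H.n)) (decide (y = M H.n))) ||
    (!decide (x = M H.n) && (!decide (y = M H.n) && (nn H x y || nn H y x)))

theorem e_last (n : ℕ) : eqv n (Fin.last _) = none := by simp [eqv]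

theorem e_cast (n : ℕ) (i : Fin (M n)) :
    eqv n (Fin.castSucc i) = some (Equiv.prodCongr
      (finProdFinEquiv (m := n + 1) (n := n + 1)).symm (Equiv.refl _)
        ((finProdFinEquiv (m := (n + 1) * (n + 1)) (n := 4)).symm i)) := by
  unfold eqv
  rw [Equiv.trans_apply, finSuccEquivLast_castSucc]
  rfl

theorem e_val (n : ℕ) (i : Fin (M n)) : ∃ q : Fin (n + 1) × Fin (n + 1), ∃ c : Fin 4,
    eqv n (Fin.castSucc i) = some (q, c) ∧ (q.1 : ℕ) = (i : ℕ) / 4 / (n + 1) ∧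
      (q.2 : ℕ) = (i : ℕ) / 4 % (n + 1) ∧ (c : ℕ) = (i : ℕ) % 4 := by
  refine ⟨_, _, e_cast n i, ?_, ?_, ?_⟩
  · simp [finProdFinEquiv]
  · simp [finProdFinEquiv]
  · simp [finProdFinEquiv]

theorem bg_adj (H : FinGraph) (i j : Fin (M H.n + 1)) :
    (bg H.n (adjB H)).Adj i j ↔ bb H i j = true := by
  change (gg (adjB H) H.n).Adj (eqv _ i) (eqv _ j) ↔ _
  unfold bb
  induction i using Fin.lastCases with
  | last =>
    induction j using Fin.lastCases with
    | last => rw [e_last]; simp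
    | cast j =>
      have hj : (j : ℕ) ≠ M H.n := j.2.ne
      obtain ⟨q, c, h1, h2, h3, h4⟩ := e_val H.n j
      rw [e_last, h1]
      simp only [Fin.val_last, Fin.val_castSucc, hj, decide_true, decide_false, Bool.xor_false,
        Bool.true_or, iff_true]
      exact gg_none _ (by simp)
  | cast i =>
    have hi : (i : ℕ) ≠ M H.n := i.2.ne
    obtain ⟨q, c, h1, h2, h3, h4⟩ := e_val H.n i
    induction j using Fin.lastCases with
    | last =>
      rw [e_last, h1]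
      simp only [Fin.val_last, Fin.val_castSucc, hi, decide_true, decide_false, Bool.false_xor,
        Bool.true_or, iff_true]
      exact (gg_none _ (by simp)).symm
    | cast j =>
      have hj : (j : ℕ) ≠ M H.n := j.2.ne
      obtain ⟨q', c', h1', h2', h3', h4'⟩ := e_val H.n j
      rw [h1, h1']
      change nb _ _ _ _ _ _ _ _ = true ∨ nb _ _ _ _ _ _ _ _ = true ↔ _
      rw [h2, h3, h4, h2', h3', h4']
      simp only [Fin.val_castSucc, hi, hj, decide_false,
        Bool.xor_false, Bool.not_false, Bool.true_and, Bool.false_or, Bool.or_eq_true]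
      rfl

theorem bg_univ (n : ℕ) (H : ℕ → ℕ → Bool) (v : Fin (M n + 1)) (hv : v ≠ Fin.last _) :
    (bg n H).Adj (Fin.last _) v := by
  change (gg H n).Adj (eqv _ (Fin.last _)) (eqv _ v)
  rw [e_last]
  refine gg_none _ ?_
  rw [← e_last]
  exact fun h => hv ((eqv n).injective h)

theorem bg_spec (n k : ℕ) (H : SimpleGraph (Fin n)) (h : ℕ → ℕ → Bool)
    (hH : ∀ i j : Fin n, h i j = true ↔ H.Adj i j) (hn : 1 ≤ n) (hk : k ≤ n) :
    bdim (bg n h) ≤ (n + 1) * (n + 1) + (n - k) ↔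
      ∃ A : Finset (Fin n), H.IsIndepSet (A : Set (Fin n)) ∧ k ≤ A.card := by
  rw [bdim_le_iff, exists_iff (w := Fin.last _) (bg_univ n h), ← main H hH hn k hk]
  exact res_comap (eqv n) (gg h n) _

/-- a fixed instance -/
noncomputable def c0 : FinGraph × ℕ := (⟨1, ⊥⟩, 1)

/-- the reduction -/
noncomputable def rd (I : FinGraph × ℕ) : FinGraph × ℕ :=
  if I.2 = 0 then c0
  else (⟨M I.1.n + 1, bg I.1.n (adjB I.1)⟩, (I.1.n + 1) * (I.1.n + 1) + 2 * I.2)

theorem rd_spec (I : FinGraph × ℕ) (hI : Bounded I ∧ I.1.n = 3 * I.2) :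
    HasUniversal (rd I).1 ∧ (HasIndep I ↔ BroadcastDim (rd I)) := by
  obtain ⟨hb, hn⟩ := hI
  by_cases h0 : I.2 = 0
  · have h1 : HasIndep I := ⟨∅, by simp, by simp [h0]⟩
    unfold rd
    rw [if_pos h0]
    refine ⟨⟨(0 : Fin 1), fun v hv => absurd (Subsingleton.elim (α := Fin 1) v 0) hv⟩,
      ⟨fun _ => ?_, fun _ => h1⟩⟩
    change bdim (⊥ : SimpleGraph (Fin 1)) ≤ 1
    rw [bdim_le_iff]
    exact ⟨fun _ => 1, one_resolving _, by simp⟩
  · have h := bg_spec I.1.n I.2 I.1.graph (adjB I.1) (fun i j => adjB_iff I.1 i j) (by omega)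
      (by omega)
    have hA : HasIndep I ↔ ∃ A : Finset (Fin I.1.n), I.1.graph.IsIndepSet (A : Set (Fin I.1.n)) ∧
        I.2 ≤ A.card := by
      constructor
      · rintro ⟨S, hS, hc⟩
        exact ⟨S, hS, hc.ge⟩
      · rintro ⟨S, hS, hc⟩
        exact ⟨S, hS, le_antisymm (hb S hS) hc⟩
    unfold rd
    rw [if_neg h0, hA, ← h]
    refine ⟨⟨Fin.last _, fun v hv => bg_univ _ _ v hv⟩, ?_⟩
    have h2 : I.1.n - I.2 = 2 * I.2 := by omega
    rw [h2]
    rfl

theorem upM : UPoly (fun I : FinGraph × ℕ => M I.1.n + 1) := by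
  have h1 : UPoly (fun I : FinGraph × ℕ => I.1.n + 1) :=
    UPoly.add (upoly_n (NPC.Poly.fst NPC.Poly.id)) (UPoly.const 1)
  exact UPoly.add (UPoly.mul (UPoly.mul h1 h1) (UPoly.const 4)) (UPoly.const 1)

theorem poly_isE {α : Type} [TEnc α] {G : α → FinGraph} {a b : α → ℕ} (hG : NPC.Poly G)
    (ha : NPC.Poly a) (hb : NPC.Poly b) :
    NPC.Poly (fun x => isE (adjB (G x)) (G x).n (a x) (b x)) := by
  unfold isE
  exact NPC.Poly.and (NPC.Poly.decide_lt ha (poly_n hG))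
    (NPC.Poly.and (NPC.Poly.decide_lt hb (poly_n hG)) (poly_adjB hG ha hb))

theorem poly_nb {α : Type} [TEnc α] {G : α → FinGraph} {a b c a' b' c' : α → ℕ}
    (hG : NPC.Poly G) (ha : NPC.Poly a) (hb : NPC.Poly b) (hc : NPC.Poly c)
    (ha' : NPC.Poly a') (hb' : NPC.Poly b') (hc' : NPC.Poly c') :
    NPC.Poly (fun x => nb (adjB (G x)) (G x).n (a x) (b x) (c x) (a' x) (b' x) (c' x)) := by
  have hn := poly_n hG
  have c2 : NPC.Poly (fun x => decide (c x < 2)) := NPC.Poly.decide_lt hc (NPC.Poly.const 2)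
  have c2' : NPC.Poly (fun x => decide (c' x < 2)) := NPC.Poly.decide_lt hc' (NPC.Poly.const 2)
  have d2' : NPC.Poly (fun x => decide (2 ≤ c' x)) := NPC.Poly.decide_le (NPC.Poly.const 2) hc'
  have e2 : NPC.Poly (fun x => decide (c x = 2)) := NPC.Poly.decide_eq hc (NPC.Poly.const 2)
  have e2' : NPC.Poly (fun x => decide (c' x = 2)) := NPC.Poly.decide_eq hc' (NPC.Poly.const 2)
  have aa := NPC.Poly.decide_eq ha ha'
  have bb := NPC.Poly.decide_eq hb hb'
  have an := NPC.Poly.decide_eq ha hn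
  have bn := NPC.Poly.decide_eq hb hn
  have bn' := NPC.Poly.decide_eq hb' hn
  have a'a := NPC.Poly.decide_eq ha' ha
  have a'b := NPC.Poly.decide_eq ha' hb
  unfold nb
  exact NPC.Poly.or (NPC.Poly.and c2 (NPC.Poly.and c2' (NPC.Poly.not (NPC.Poly.and aa bb))))
    (NPC.Poly.or (NPC.Poly.and c2 (NPC.Poly.and d2' (NPC.Poly.and aa (NPC.Poly.and bb
      (NPC.Poly.not (NPC.Poly.and an bn))))))
      (NPC.Poly.or (NPC.Poly.and c2 (NPC.Poly.and e2' (NPC.Poly.and an (NPC.Poly.and bn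
        (NPC.Poly.not (poly_isE hG ha' hb'))))))
        (NPC.Poly.and e2 (NPC.Poly.and e2' (NPC.Poly.and (poly_isE hG ha hb)
          (NPC.Poly.and bn' (NPC.Poly.or a'a a'b)))))))

theorem poly_bb : NPC.Poly (fun p : ((FinGraph × ℕ) × ℕ) × ℕ => bb p.1.1.1 p.1.2 p.2) := by
  have h0 : NPC.Poly (fun p : ((FinGraph × ℕ) × ℕ) × ℕ => p.1.1) :=
    NPC.Poly.fst (NPC.Poly.fst NPC.Poly.id)
  have hx : NPC.Poly (fun p : ((FinGraph × ℕ) × ℕ) × ℕ => p.1.2) :=
    NPC.Poly.snd (NPC.Poly.fst NPC.Poly.id)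
  have hy : NPC.Poly (fun p : ((FinGraph × ℕ) × ℕ) × ℕ => p.2) := NPC.Poly.snd NPC.Poly.id
  have hG : NPC.Poly (fun p : ((FinGraph × ℕ) × ℕ) × ℕ => p.1.1.1) := NPC.Poly.fst h0
  have hnn : NPC.Poly (fun p : ((FinGraph × ℕ) × ℕ) × ℕ => p.1.1.1.n) := poly_n hG
  have hm : NPC.Poly (fun p : ((FinGraph × ℕ) × ℕ) × ℕ => p.1.1.1.n + 1) :=
    (UPoly.add (upoly_n hG) (UPoly.const 1)).toPoly
  have h4 : NPC.Poly (fun _ : ((FinGraph × ℕ) × ℕ) × ℕ => 4) := NPC.Poly.const 4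
  have hM : NPC.Poly (fun p : ((FinGraph × ℕ) × ℕ) × ℕ => M p.1.1.1.n) :=
    NPC.Poly.mul (NPC.Poly.mul hm hm) h4
  have hx4 := NPC.Poly.div hx h4
  have hy4 := NPC.Poly.div hy h4
  have xa := NPC.Poly.div hx4 hm
  have xb := NPC.Poly.mod hx4 hm
  have xc := NPC.Poly.mod hx h4
  have ya := NPC.Poly.div hy4 hm
  have yb := NPC.Poly.mod hy4 hm
  have yc := NPC.Poly.mod hy h4
  unfold bb nn
  exact NPC.Poly.or (NPC.Poly.xor (NPC.Poly.decide_eq hx hM) (NPC.Poly.decide_eq hy hM))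
    (NPC.Poly.and (NPC.Poly.not (NPC.Poly.decide_eq hx hM))
      (NPC.Poly.and (NPC.Poly.not (NPC.Poly.decide_eq hy hM))
        (NPC.Poly.or (poly_nb hG xa xb xc ya yb yc) (poly_nb hG ya yb yc xa xb xc))))

theorem poly_fg : NPC.Poly (fun I : FinGraph × ℕ =>
    (⟨M I.1.n + 1, bg I.1.n (adjB I.1)⟩ : FinGraph)) :=
  poly_finGraph (α := FinGraph × ℕ) (N := fun I => M I.1.n + 1)
    (G := fun I => bg I.1.n (adjB I.1))
    (b := fun I x y => bb I.1 x y) upM poly_bb
    (fun a i j => bg_adj a.1 i j)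

theorem poly_tg : NPC.Poly (fun I : FinGraph × ℕ => (I.1.n + 1) * (I.1.n + 1) + 2 * I.2) := by
  have h1 : NPC.Poly (fun I : FinGraph × ℕ => I.1.n + 1) :=
    (UPoly.add (upoly_n (NPC.Poly.fst NPC.Poly.id)) (UPoly.const 1)).toPoly
  exact NPC.Poly.add (NPC.Poly.mul h1 h1)
    (NPC.Poly.mul (NPC.Poly.const 2) (NPC.Poly.snd NPC.Poly.id))

theorem poly_ite' {α β : Type} [TEnc α] [TEnc β] {p : α → Prop} [DecidablePred p] {c : β}
    {g : α → β} (hp : NPC.Poly (fun a => decide (p a))) (hg : NPC.Poly g) :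
    NPC.Poly (fun a => if p a then c else g a) :=
  NPC.Poly.ite hp (NPC.Poly.const c) hg

theorem poly_rd : NPC.Poly rd := by
  have h1 := NPC.Poly.pair poly_fg poly_tg
  have h2 : NPC.Poly (fun I : FinGraph × ℕ => decide (I.2 = 0)) :=
    NPC.Poly.decide_eq (NPC.Poly.snd NPC.Poly.id) (NPC.Poly.const 0)
  exact poly_ite' (c := c0) h2 h1

theorem hardPr : HardPr (fun I : FinGraph × ℕ => HasUniversal I.1) BroadcastDim :=
  hardPr_indep.trans poly_rd (fun I hI => (rd_spec I hI).1) fun I hI => (rd_spec I hI).2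

theorem hard : NPHardP BroadcastDim :=
  (HardPr.toHardI (Pr := fun _ => True) (hardPr_indep.trans poly_rd (fun _ _ => trivial)
      fun I hI => (rd_spec I hI).2)).toNPHardP

end Pool.Agent.T6.H74.BD
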