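import Pool.Agent.T6.H74.BD.BMain
import Pool.Agent.T6.H74.BD.Red

/-!
# Broadcast dimension of bipartite graphs: NP-hardness
-/

set_option autoImplicit false

namespace Pool.Agent.T6.H74.BD.Bip

open Pool.Agent.NPC Pool.Agent.H692R2 Pool.Agent.NPC.R542

/-- The graph is connected and bipartite, and any two vertices have distance at most `3`. -/
def Good (G : FinGraph) : Prop :=
  G.graph.Connected ∧ G.graph.IsBipartite ∧ ∀ x y, G.graph.dist x y ≤ 3

/-- The instances `(G, t)` such that `G` is a connected bipartite graph, any two vertices of `G`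
have distance at most `3`, and the broadcast dimension of `G` is at most `t`. -/
def BipBroadcastDim (I : FinGraph × ℕ) : Prop :=
  Good I.1 ∧ bdim I.1.graph ≤ I.2

/-- the order of the new graph -/
abbrev M (n : ℕ) : ℕ := (n + 1) * (n + 1) * 7

/-- numbering of the vertices -/
def eqv (n : ℕ) : Fin (M n) ≃ X n :=
  (finProdFinEquiv (m := (n + 1) * (n + 1)) (n := 7)).symm.trans
      (Equiv.prodCongr (finProdFinEquiv (m := n + 1) (n := n + 1)).symm (Equiv.refl _))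

/-- the new graph -/
def bg (n : ℕ) (H : ℕ → ℕ → Bool) : SimpleGraph (Fin (M n)) :=
  (gg H n).comap (eqv n)

/-- the adjacency in one direction -/
noncomputable def nn (H : FinGraph) (x y : ℕ) : Bool :=
  nb (adjB H) H.n (x / 7 / (H.n + 1)) (x / 7 % (H.n + 1)) (x % 7)
    (y / 7 / (H.n + 1)) (y / 7 % (H.n + 1)) (y % 7)

/-- the adjacency bit of the new graph -/
noncomputable def bb (H : FinGraph) (x y : ℕ) : Bool := nn H x y || nn H y x

theorem e_val (n : ℕ) (i : Fin (M n)) :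
    (((eqv n i).1.1 : Fin (n + 1)) : ℕ) = (i : ℕ) / 7 / (n + 1) ∧
      (((eqv n i).1.2 : Fin (n + 1)) : ℕ) = (i : ℕ) / 7 % (n + 1) ∧
      (((eqv n i).2 : Fin 7) : ℕ) = (i : ℕ) % 7 := by
  refine ⟨?_, ?_, ?_⟩ <;> simp [eqv, finProdFinEquiv]

theorem bg_adj (H : FinGraph) (i j : Fin (M H.n)) :
    (bg H.n (adjB H)).Adj i j ↔ bb H i j = true := by
  obtain ⟨h2, h3, h4⟩ := e_val H.n i
  obtain ⟨h2', h3', h4'⟩ := e_val H.n j
  change nb _ _ _ _ _ _ _ _ = true ∨ nb _ _ _ _ _ _ _ _ = true ↔ _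
  rw [h2, h3, h4, h2', h3', h4']
  unfold bb
  rw [Bool.or_eq_true]
  rfl

theorem poles' (n : ℕ) (H : ℕ → ℕ → Bool) : Poles (bg n H) (fun v => side (eqv n v))
    ((eqv n).symm (st n, 6)) ((eqv n).symm (st n, 4)) where
  bip := fun x y hxy => (poles (h := H) (n := n)).bip _ _ hxy
  sP := by simpa using (poles (h := H) (n := n)).sP
  sQ := by simpa using (poles (h := H) (n := n)).sQ
  hP := by
    intro v hv
    change (gg H n).Adj (eqv n ((eqv n).symm (st n, 6))) (eqv n v)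
    rw [Equiv.apply_symm_apply]
    exact (poles (h := H) (n := n)).hP _ hv
  hQ := by
    intro v hv
    change (gg H n).Adj (eqv n ((eqv n).symm (st n, 4))) (eqv n v)
    rw [Equiv.apply_symm_apply]
    exact (poles (h := H) (n := n)).hQ _ hv

theorem resS_comap {n : ℕ} {H : ℕ → ℕ → Bool} {t : ℕ}
    (hS : ∃ S : Finset (Fin (M n)), S.card ≤ t ∧ ResS (bg n H) (fun v => side (eqv n v)) S) :
    ∃ S : Finset (X n), S.card ≤ t ∧ ResS (gg H n) side S := by
  obtain ⟨S, hS, hR⟩ := hS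
  refine ⟨S.map (eqv n).toEmbedding, by simpa using hS, ?_⟩
  intro x y hxy hs
  obtain ⟨z, hz, h⟩ := hR ((eqv n).symm x) ((eqv n).symm y)
    (fun h => hxy ((eqv n).symm.injective h)) (by simpa using hs)
  refine ⟨eqv n z, by simpa using hz, ?_⟩
  rcases h with h | h | h
  · exact Or.inl (by rw [h]; simp)
  · exact Or.inr (Or.inl (by rw [h]; simp))
  · refine Or.inr (Or.inr ?_)
    simpa [bg, SimpleGraph.comap_adj] using h

theorem good (n : ℕ) (H : ℕ → ℕ → Bool) : Good ⟨M n, bg n H⟩ := by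
  have hp := poles' n H
  have h3 : ∀ x y, (bg n H).edist x y ≤ 3 := hp.le3
  refine ⟨?_, ?_, ?_⟩
  · have : Nonempty (Fin (M n)) := ⟨(eqv n).symm (st n, 6)⟩
    change (bg n H).Connected
    rw [SimpleGraph.connected_iff]
    refine ⟨fun x y => ?_, this⟩
    rw [← SimpleGraph.edist_ne_top_iff_reachable]
    intro h
    have := h3 x y
    rw [h] at this
    simp at this
  · change (bg n H).Colorable 2
    have hc : (bg n H).Coloring Bool := SimpleGraph.Coloring.mk (fun v => side (eqv n v))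
      (fun {v w} hvw => hp.bip v w hvw)
    have := hc.colorable
    simpa using this
  · intro x y
    change (bg n H).dist x y ≤ 3
    have h4 := h3 x y
    unfold SimpleGraph.dist
    exact ENat.toNat_le_of_le_natCast h4

theorem bg_spec (n k : ℕ) (H : SimpleGraph (Fin n)) (h : ℕ → ℕ → Bool)
    (hH : ∀ i j : Fin n, h i j = true ↔ H.Adj i j) (hn : 1 ≤ n) (hk : k ≤ n) :
    bdim (bg n h) ≤ 2 * ((n + 1) * (n + 1)) + (n - k) ↔
      ∃ A : Finset (Fin n), H.IsIndepSet (A : Set (Fin n)) ∧ k ≤ A.card := by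
  rw [bdim_le_iff]
  constructor
  · intro hh
    exact down H hH hn k hk (resS_comap ((poles' n h).down hh))
  · intro hh
    exact up ((res_comap (eqv n) (gg h n) _).2 (upR H hH hn k hh))

/-- a fixed instance -/
noncomputable def c0 : FinGraph × ℕ := (⟨1, ⊥⟩, 1)

/-- the reduction -/
noncomputable def rd (I : FinGraph × ℕ) : FinGraph × ℕ :=
  if I.2 = 0 then c0
  else (⟨M I.1.n, bg I.1.n (adjB I.1)⟩, 2 * ((I.1.n + 1) * (I.1.n + 1)) + 2 * I.2)

theorem good_c0 : Good c0.1 := by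
  refine ⟨?_, ?_, ?_⟩
  · change (⊥ : SimpleGraph (Fin 1)).Connected
    rw [SimpleGraph.connected_iff]
    refine ⟨fun x y => ?_, ⟨0⟩⟩
    rw [Subsingleton.elim x y]
  · change (⊥ : SimpleGraph (Fin 1)).Colorable 2
    exact ⟨SimpleGraph.Coloring.mk (fun _ => (0 : Fin 2)) (fun {v w} hvw => absurd hvw (by simp))⟩
  · intro x y
    have hxy : x = y := Subsingleton.elim (α := Fin 1) x y
    rw [hxy, SimpleGraph.dist_self]
    exact Nat.zero_le _

theorem rd_spec (I : FinGraph × ℕ) (hI : Bounded I ∧ I.1.n = 3 * I.2) :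
    Good (rd I).1 ∧ (HasIndep I ↔ BroadcastDim (rd I)) := by
  obtain ⟨hb, hn⟩ := hI
  by_cases h0 : I.2 = 0
  · have h1 : HasIndep I := ⟨∅, by simp, by simp [h0]⟩
    unfold rd
    rw [if_pos h0]
    refine ⟨good_c0, ⟨fun _ => ?_, fun _ => h1⟩⟩
    change bdim (⊥ : SimpleGraph (Fin 1)) ≤ 1
    rw [bdim_le_iff]
    exact ⟨fun _ => 1, one_resolving _, by simp⟩
  · have h := bg_spec I.1.n I.2 I.1.graph (adjB I.1) (fun i j => adjB_iff I.1 i j) (by omega)
      (by omega)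
    have hA : HasIndep I ↔ ∃ A : Finset (Fin I.1.n), I.1.graph.IsIndepSet (A : Set (Fin I.1.n)) ∧
        I.2 ≤ A.card := by
      constructor
      · rintro ⟨S, hS, hc⟩
        exact ⟨S, hS, hc.ge⟩
      · rintro ⟨S, hS, hc⟩
        exact ⟨S, hS, le_antisymm (hb S hS) hc⟩
    unfold rd
    rw [if_neg h0, hA, ← h]
    refine ⟨good _ _, ?_⟩
    have h2 : I.1.n - I.2 = 2 * I.2 := by omega
    rw [h2]
    rfl

theorem upM : UPoly (fun I : FinGraph × ℕ => M I.1.n) := by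
  have h1 : UPoly (fun I : FinGraph × ℕ => I.1.n + 1) :=
    UPoly.add (upoly_n (NPC.Poly.fst NPC.Poly.id)) (UPoly.const 1)
  exact UPoly.mul (UPoly.mul h1 h1) (UPoly.const 7)

theorem poly_nb {α : Type} [TEnc α] {G : α → FinGraph} {a b c a' b' c' : α → ℕ}
    (hG : NPC.Poly G) (ha : NPC.Poly a) (hb : NPC.Poly b) (hc : NPC.Poly c)
    (ha' : NPC.Poly a') (hb' : NPC.Poly b') (hc' : NPC.Poly c') :
    NPC.Poly (fun x => nb (adjB (G x)) (G x).n (a x) (b x) (c x) (a' x) (b' x) (c' x)) := by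
  have hn := poly_n hG
  have c2 : NPC.Poly (fun x => decide (c x < 2)) := NPC.Poly.decide_lt hc (NPC.Poly.const 2)
  have c6 : NPC.Poly (fun x => decide (c x = 6)) := NPC.Poly.decide_eq hc (NPC.Poly.const 6)
  have d2 : NPC.Poly (fun x => decide (2 ≤ c' x)) := NPC.Poly.decide_le (NPC.Poly.const 2) hc'
  have d6 : NPC.Poly (fun x => decide (c' x < 6)) := NPC.Poly.decide_lt hc' (NPC.Poly.const 6)
  have d4 : NPC.Poly (fun x => decide (c' x < 4)) := NPC.Poly.decide_lt hc' (NPC.Poly.const 4)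
  have d4' : NPC.Poly (fun x => decide (4 ≤ c' x)) := NPC.Poly.decide_le (NPC.Poly.const 4) hc'
  have e4 : NPC.Poly (fun x => decide (c' x = 4)) := NPC.Poly.decide_eq hc' (NPC.Poly.const 4)
  have aa := NPC.Poly.decide_eq ha ha'
  have bb := NPC.Poly.decide_eq hb hb'
  have an := NPC.Poly.decide_eq ha hn
  have bn := NPC.Poly.decide_eq hb hn
  have an' := NPC.Poly.decide_eq ha' hn
  have bn' := NPC.Poly.decide_eq hb' hn
  have ab' := NPC.Poly.decide_eq ha hb'
  have sm := NPC.Poly.and aa bb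
  have stq := NPC.Poly.and an bn
  have str := NPC.Poly.and an' bn'
  have hE := poly_isE hG ha' hb'
  unfold nb
  exact NPC.Poly.and (NPC.Poly.or c2 c6) (NPC.Poly.and (NPC.Poly.and d2 d6)
    (NPC.Poly.or (NPC.Poly.and c6 stq)
    (NPC.Poly.or (NPC.Poly.and e4 str)
    (NPC.Poly.or (NPC.Poly.and c2 (NPC.Poly.and d4 sm))
    (NPC.Poly.or (NPC.Poly.and c2 (NPC.Poly.and d4' (NPC.Poly.and (NPC.Poly.not sm)
      (NPC.Poly.not stq))))
    (NPC.Poly.or (NPC.Poly.and c2 (NPC.Poly.and e4 (NPC.Poly.and stq (NPC.Poly.not hE))))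
    (NPC.Poly.or (NPC.Poly.and c6 (NPC.Poly.and d4 (NPC.Poly.not sm)))
    (NPC.Poly.and c6 (NPC.Poly.and e4 (NPC.Poly.and hE (NPC.Poly.and bn
      (NPC.Poly.or aa ab'))))))))))))

theorem poly_bb : NPC.Poly (fun p : ((FinGraph × ℕ) × ℕ) × ℕ => bb p.1.1.1 p.1.2 p.2) := by
  have h0 : NPC.Poly (fun p : ((FinGraph × ℕ) × ℕ) × ℕ => p.1.1) :=
    NPC.Poly.fst (NPC.Poly.fst NPC.Poly.id)
  have hx : NPC.Poly (fun p : ((FinGraph × ℕ) × ℕ) × ℕ => p.1.2) :=
    NPC.Poly.snd (NPC.Poly.fst NPC.Poly.id)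
  have hy : NPC.Poly (fun p : ((FinGraph × ℕ) × ℕ) × ℕ => p.2) := NPC.Poly.snd NPC.Poly.id
  have hG : NPC.Poly (fun p : ((FinGraph × ℕ) × ℕ) × ℕ => p.1.1.1) := NPC.Poly.fst h0
  have hm : NPC.Poly (fun p : ((FinGraph × ℕ) × ℕ) × ℕ => p.1.1.1.n + 1) :=
    (UPoly.add (upoly_n hG) (UPoly.const 1)).toPoly
  have h7 : NPC.Poly (fun _ : ((FinGraph × ℕ) × ℕ) × ℕ => 7) := NPC.Poly.const 7
  have hx4 := NPC.Poly.div hx h7
  have hy4 := NPC.Poly.div hy h7
  have xa := NPC.Poly.div hx4 hm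
  have xb := NPC.Poly.mod hx4 hm
  have xc := NPC.Poly.mod hx h7
  have ya := NPC.Poly.div hy4 hm
  have yb := NPC.Poly.mod hy4 hm
  have yc := NPC.Poly.mod hy h7
  unfold bb nn
  exact NPC.Poly.or (poly_nb hG xa xb xc ya yb yc) (poly_nb hG ya yb yc xa xb xc)

theorem poly_fg : NPC.Poly (fun I : FinGraph × ℕ =>
    (⟨M I.1.n, bg I.1.n (adjB I.1)⟩ : FinGraph)) :=
  poly_finGraph (α := FinGraph × ℕ) (N := fun I => M I.1.n)
    (G := fun I => bg I.1.n (adjB I.1))
    (b := fun I x y => bb I.1 x y) upM poly_bb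
    (fun a i j => bg_adj a.1 i j)

theorem poly_tg : NPC.Poly (fun I : FinGraph × ℕ =>
    2 * ((I.1.n + 1) * (I.1.n + 1)) + 2 * I.2) := by
  have h1 : NPC.Poly (fun I : FinGraph × ℕ => I.1.n + 1) :=
    (UPoly.add (upoly_n (NPC.Poly.fst NPC.Poly.id)) (UPoly.const 1)).toPoly
  exact NPC.Poly.add (NPC.Poly.mul (NPC.Poly.const 2) (NPC.Poly.mul h1 h1))
    (NPC.Poly.mul (NPC.Poly.const 2) (NPC.Poly.snd NPC.Poly.id))

theorem poly_rd : NPC.Poly rd := by
  have h1 := NPC.Poly.pair poly_fg poly_tg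
  have h2 : NPC.Poly (fun I : FinGraph × ℕ => decide (I.2 = 0)) :=
    NPC.Poly.decide_eq (NPC.Poly.snd NPC.Poly.id) (NPC.Poly.const 0)
  exact poly_ite' (c := c0) h2 h1

theorem hardPr : HardPr (fun I : FinGraph × ℕ => Good I.1) BroadcastDim :=
  hardPr_indep.trans poly_rd (fun I hI => (rd_spec I hI).1) fun I hI => (rd_spec I hI).2

theorem hardI_bip : HardI BipBroadcastDim := by
  intro L hL
  obtain ⟨g, hg, hgp, hgL⟩ := hardPr L hL
  exact ⟨g, hg, fun x => (hgL x).trans ⟨fun h => ⟨hgp x, h⟩, fun h => h.2⟩⟩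

theorem hard_bip : NPHardP BipBroadcastDim := hardI_bip.toNPHardP

theorem hard_all : NPHardP BroadcastDim := hardPr.toHardI.toNPHardP

end Pool.Agent.T6.H74.BD.Bip
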