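import Pool.Agent.T6.H74.BD.Gadget

/-!
# Resolving sets of the new graph and independent sets of the old graph
-/

set_option autoImplicit false

namespace Pool.Agent.T6.H74.BD

open Finset

variable {h : ℕ → ℕ → Bool} {n : ℕ}

theorem fin4 (c : Fin 4) : c = 0 ∨ c = 1 ∨ c = 2 ∨ c = 3 := by
  fin_cases c <;> simp

theorem ord1 (c : Fin 4) (hc : 2 ≤ (c : ℕ)) (p : Fin (n + 1) × Fin (n + 1)) (hp : p ≠ st n) :
    (gg h n).Adj (some (p, c)) (some (p, 0)) := by
  rcases fin4 c with rfl | rfl | rfl | rfl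
  · exact absurd hc (by decide)
  · exact absurd hc (by decide)
  · exact ((a12 p p (c := 0) (by decide)).2 (Or.inl ⟨rfl, hp⟩)).symm
  · exact ((a13 p p (c := 0) (by decide)).2 ⟨rfl, hp⟩).symm

theorem ord2 (c : Fin 4) (hc : 2 ≤ (c : ℕ)) (p r : Fin (n + 1) × Fin (n + 1)) (hp : p ≠ st n)
    (hpr : p ≠ r) : ¬ (gg h n).Adj (some (r, c)) (some (p, 0)) := by
  intro hh
  rcases fin4 c with rfl | rfl | rfl | rfl
  · exact absurd hc (by decide)
  · exact absurd hc (by decide)
  · rcases (a12 p r (c := 0) (by decide)).1 hh.symm with h1 | h1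
    · exact hpr h1.1
    · exact hp h1.1
  · exact hpr ((a13 p r (c := 0) (by decide)).1 hh.symm).1

theorem ex3 (hn : 1 ≤ n) (q r s : Fin (n + 1) × Fin (n + 1)) : ∃ p, p ≠ q ∧ p ≠ r ∧ p ≠ s := by
  classical
  by_contra hcon
  push Not at hcon
  have h1 : (Finset.univ : Finset (Fin (n + 1) × Fin (n + 1))) ⊆ {q, r, s} := by
    intro p _
    by_cases h1 : p = q
    · simp [h1]
    by_cases h2 : p = r
    · simp [h2]
    · simp [hcon p h1 h2]
  have h2 := Finset.card_le_card h1
  have h3 : ({q, r, s} : Finset (Fin (n + 1) × Fin (n + 1))).card ≤ 3 := Finset.card_le_three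
  rw [Finset.card_univ, Fintype.card_prod, Fintype.card_fin] at h2
  nlinarith

/-- `x` and `y` are resolved by `S` -/
def Sep (h : ℕ → ℕ → Bool) (n : ℕ) (S : Finset (X n)) (x y : X n) : Prop :=
  ∃ z ∈ S, z = x ∨ z = y ∨ ¬ ((gg h n).Adj x z ↔ (gg h n).Adj y z)

theorem Sep.symm {S : Finset (X n)} {x y : X n} (hs : Sep h n S x y) : Sep h n S y x := by
  obtain ⟨z, hz, h1 | h1 | h1⟩ := hs
  · exact ⟨z, hz, Or.inr (Or.inl h1)⟩
  · exact ⟨z, hz, Or.inl h1⟩
  · exact ⟨z, hz, Or.inr (Or.inr fun h2 => h1 h2.symm)⟩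

theorem Sep.mk1 {S : Finset (X n)} {x y z : X n} (hz : z ∈ S) (h1 : (gg h n).Adj x z)
    (h2 : ¬ (gg h n).Adj y z) : Sep h n S x y :=
  ⟨z, hz, Or.inr (Or.inr fun h3 => h2 (h3.1 h1))⟩

theorem res_of (hn : 1 ≤ n) {S : Finset (X n)} (hT : ∀ q, some (q, 0) ∈ S)
    (hC : ∀ q, Ed h n q → ∃ z ∈ S, (gg h n).Adj (some (q, 2)) z ∧ ¬ (gg h n).Adj (some (q, 3)) z) :
    Res (gg h n) S := by
  have s0 : ∀ q y, Sep h n S (some (q, 0)) y := fun q y => ⟨_, hT q, Or.inl rfl⟩
  have n1 : ∀ q, Sep h n S none (some (q, 1)) := fun q =>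
    Sep.mk1 (hT q) (gg_none _ (by simp)) (by rw [a11 q q (by decide) (by decide)]; simp)
  have n2 : ∀ q (c : Fin 4), 2 ≤ (c : ℕ) → Sep h n S none (some (q, c)) := by
    intro q c hc
    obtain ⟨p, h1, h2, _⟩ := ex3 hn q (st n) q
    exact Sep.mk1 (hT p) (gg_none _ (by simp)) (ord2 c hc p q h2 h1)
  have s11 : ∀ q r, q ≠ r → Sep h n S (some (q, 1)) (some (r, 1)) := fun q r hqr =>
    (Sep.mk1 (hT q) ((a11 r q (by decide) (by decide)).2 hqr.symm)
      (by rw [a11 q q (by decide) (by decide)]; simp)).symm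
  have s12 : ∀ q r (c : Fin 4), 2 ≤ (c : ℕ) → Sep h n S (some (q, 1)) (some (r, c)) := by
    intro q r c hc
    obtain ⟨p, h1, h2, h3⟩ := ex3 hn q r (st n)
    exact Sep.mk1 (hT p) ((a11 q p (by decide) (by decide)).2 h1.symm) (ord2 c hc p r h3 h2)
  have s22 : ∀ q r (c d : Fin 4), 2 ≤ (c : ℕ) → 2 ≤ (d : ℕ) → q ≠ r →
      Sep h n S (some (q, c)) (some (r, d)) := by
    intro q r c d hc hd hqr
    by_cases hq : q = st n
    · have hr : r ≠ st n := fun hr => hqr (hq.trans hr.symm)
      exact (Sep.mk1 (hT r) (ord1 d hd r hr) (ord2 c hc r q hr hqr.symm)).symm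
    · exact Sep.mk1 (hT q) (ord1 c hc q hq) (ord2 d hd q r hq hqr)
  have s23 : ∀ q, Sep h n S (some (q, 2)) (some (q, 3)) := by
    intro q
    by_cases hq : Ed h n q
    · obtain ⟨z, hz, h1, h2⟩ := hC q hq
      exact Sep.mk1 hz h1 h2
    · refine Sep.mk1 (hT (st n)) ((a12 (st n) q (c := 0) (by decide)).2 (Or.inr ⟨rfl, hq⟩)).symm ?_
      intro hh
      exact ((a13 (st n) q (c := 0) (by decide)).1 hh.symm).2 rfl
  have key : ∀ x y : X n, x ≠ y → Sep h n S x y := by
    rintro (_ | ⟨q, c⟩) (_ | ⟨r, d⟩) hxy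
    · exact absurd rfl hxy
    · rcases fin4 d with rfl | rfl | rfl | rfl
      · exact (s0 r _).symm
      · exact n1 r
      · exact n2 r _ (by decide)
      · exact n2 r _ (by decide)
    · rcases fin4 c with rfl | rfl | rfl | rfl
      · exact s0 q _
      · exact (n1 q).symm
      · exact (n2 q _ (by decide)).symm
      · exact (n2 q _ (by decide)).symm
    · by_cases hqr : q = r
      · subst hqr
        have hcd : c ≠ d := fun hcd => hxy (by rw [hcd])
        rcases fin4 c with rfl | rfl | rfl | rfl <;> rcases fin4 d with rfl | rfl | rfl | rfl <;>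
          first
          | exact absurd rfl hcd
          | exact s0 q _
          | exact (s0 q _).symm
          | exact s12 q q _ (by decide)
          | exact (s12 q q _ (by decide)).symm
          | exact s23 q
          | exact (s23 q).symm
      · rcases fin4 c with rfl | rfl | rfl | rfl <;> rcases fin4 d with rfl | rfl | rfl | rfl <;>
          first
          | exact s0 q _
          | exact (s0 r _).symm
          | exact s11 q r hqr
          | exact s12 q r _ (by decide)
          | exact (s12 r q _ (by decide)).symm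
          | exact s22 q r _ _ (by decide) (by decide) hqr
  exact key

theorem twins (q : Fin (n + 1) × Fin (n + 1)) (z : X n) :
    (gg h n).Adj (some (q, 0)) z ↔ (gg h n).Adj (some (q, 1)) z := by
  rcases z with _ | ⟨r, d⟩
  · exact ⟨fun _ => (gg_none _ (by simp)).symm, fun _ => (gg_none _ (by simp)).symm⟩
  · rcases fin4 d with rfl | rfl | rfl | rfl
    · rw [a11 q r (by decide) (by decide), a11 q r (by decide) (by decide)]
    · rw [a11 q r (by decide) (by decide), a11 q r (by decide) (by decide)]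
    · rw [a12 q r (by decide), a12 q r (by decide)]
    · rw [a13 q r (by decide), a13 q r (by decide)]

theorem ends (q : Fin (n + 1) × Fin (n + 1)) (hq : Ed h n q) (z : X n)
    (hz : ¬ ((gg h n).Adj (some (q, 2)) z ↔ (gg h n).Adj (some (q, 3)) z)) :
    ∃ r : Fin (n + 1) × Fin (n + 1), z = some (r, 2) ∧ ((r.1 : ℕ) = q.1 ∨ (r.1 : ℕ) = q.2) := by
  rcases z with _ | ⟨r, d⟩
  · exact absurd ⟨fun _ => (gg_none _ (by simp)).symm, fun _ => (gg_none _ (by simp)).symm⟩ hz
  · have hb : (q.2 : ℕ) ≠ n := by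
      unfold Ed isE at hq
      simp only [Bool.and_eq_true, decide_eq_true_eq] at hq
      exact hq.2.1.ne
    rcases fin4 d with rfl | rfl | rfl | rfl
    · exfalso
      apply hz
      rw [SimpleGraph.adj_comm, a12 r q (by decide), SimpleGraph.adj_comm, a13 r q (by decide)]
      simp [hq]
    · exfalso
      apply hz
      rw [SimpleGraph.adj_comm, a12 r q (by decide), SimpleGraph.adj_comm, a13 r q (by decide)]
      simp [hq]
    · have h3 : ¬ (gg h n).Adj (some (q, 3)) (some (r, 2)) := a33 q r 2 (by decide)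
      have h2 : (gg h n).Adj (some (q, 2)) (some (r, 2)) := by
        by_contra h2
        exact hz ⟨fun h4 => absurd h4 h2, fun h4 => absurd h4 h3⟩
      rcases (a22 q r).1 h2 with h4 | h4
      · exact ⟨r, rfl, h4.2.2⟩
      · exact absurd h4.2.1 hb
    · exfalso
      have h3 : ¬ (gg h n).Adj (some (q, 3)) (some (r, 3)) := a33 q r 3 (by decide)
      have h2 : ¬ (gg h n).Adj (some (q, 2)) (some (r, 3)) := fun h2 =>
        a33 r q 2 (by decide) h2.symm
      exact hz ⟨fun h4 => absurd h4 h2, fun h4 => absurd h4 h3⟩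

/-- the vertex of the old graph of a vertex of the new graph -/
def back (hn : 1 ≤ n) : X n → Fin n
  | none => ⟨0, hn⟩
  | some (q, _) => if hq : (q.1 : ℕ) < n then ⟨q.1, hq⟩ else ⟨0, hn⟩

theorem back_eq (hn : 1 ≤ n) (q : Fin (n + 1) × Fin (n + 1)) (c : Fin 4) (a : Fin n)
    (ha : (q.1 : ℕ) = a) : back hn (some (q, c)) = a := by
  have h1 : (q.1 : ℕ) < n := by rw [ha]; exact a.2
  unfold back
  simp only [h1, dif_pos]
  exact Fin.ext ha

/-- not one of the twins -/
def Ordi : X n → Prop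
  | none => True
  | some (_, c) => 2 ≤ (c : ℕ)

theorem main (H : SimpleGraph (Fin n)) (hH : ∀ i j : Fin n, h i j = true ↔ H.Adj i j)
    (hn : 1 ≤ n) (k : ℕ) (hk : k ≤ n) :
    (∃ S : Finset (X n), S.card ≤ (n + 1) * (n + 1) + (n - k) ∧ Res (gg h n) S) ↔
      ∃ A : Finset (Fin n), H.IsIndepSet (A : Set (Fin n)) ∧ k ≤ A.card := by
  classical
  constructor
  · rintro ⟨S, hS, hR⟩
    -- one of the twins
    have h1 : ∀ q : Fin (n + 1) × Fin (n + 1), ∃ z ∈ S, z = some (q, 0) ∨ z = some (q, 1) := by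
      intro q
      obtain ⟨z, hz, h1⟩ := hR (some (q, 0)) (some (q, 1)) (by simp)
      refine ⟨z, hz, ?_⟩
      rcases h1 with h1 | h1 | h1
      · exact Or.inl h1
      · exact Or.inr h1
      · exact absurd (twins q z) h1
    choose f hf hf2 using h1
    have hinj : Function.Injective f := by
      intro q r hqr
      rcases hf2 q with h1 | h1 <;> rcases hf2 r with h2 | h2 <;> rw [h1, h2] at hqr <;>
        simp at hqr <;> exact hqr
    have hcard1 : (n + 1) * (n + 1) ≤ (S.filter fun z => ¬ Ordi z).card := by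
      have h2 : (Finset.univ.image f).card = (n + 1) * (n + 1) := by
        rw [Finset.card_image_of_injective _ hinj, Finset.card_univ, Fintype.card_prod,
          Fintype.card_fin]
      rw [← h2]
      refine Finset.card_le_card ?_
      intro z hz
      obtain ⟨q, _, rfl⟩ := Finset.mem_image.1 hz
      refine Finset.mem_filter.2 ⟨hf q, ?_⟩
      rcases hf2 q with h3 | h3 <;> rw [h3] <;> simp [Ordi]
    have hcard2 := Finset.card_filter_add_card_filter_not (s := S) (fun z : X n => Ordi z)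
    have hcard3 : (S.filter fun z => Ordi z).card ≤ n - k := by omega
    let C : Finset (Fin n) := (S.filter fun z => Ordi z).image (back hn)
    have hC : C.card ≤ n - k := Finset.card_image_le.trans hcard3
    refine ⟨Finset.univ \ C, ?_, ?_⟩
    · intro a ha b hb hab hadj
      have ha' : a ∉ C := by simpa using ha
      have hb' : b ∉ C := by simpa using hb
      have hq : Ed h n (a.castSucc, b.castSucc) := by
        unfold Ed isE
        simp [(hH a b).2 hadj]
      obtain ⟨z, hz, h1⟩ := hR (some ((a.castSucc, b.castSucc), 2))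
        (some ((a.castSucc, b.castSucc), 3)) (by simp)
      have hmem : ∀ q : Fin (n + 1) × Fin (n + 1), ∀ c : Fin 4, 2 ≤ (c : ℕ) → z = some (q, c) →
          ∀ x : Fin n, (q.1 : ℕ) = x → x ∈ C := by
        intro q c hc hzq x hx
        refine Finset.mem_image.2 ⟨z, Finset.mem_filter.2 ⟨hz, ?_⟩, ?_⟩
        · rw [hzq]; exact hc
        · rw [hzq]; exact back_eq hn q c x hx
      rcases h1 with h1 | h1 | h1
      · exact ha' (hmem _ 2 (by decide) h1 a rfl)
      · exact ha' (hmem _ 3 (by decide) h1 a rfl)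
      · obtain ⟨r, hr, hr2 | hr2⟩ := ends _ hq z h1
        · exact ha' (hmem r 2 (by decide) hr a hr2)
        · exact hb' (hmem r 2 (by decide) hr b hr2)
    · rw [Finset.card_sdiff_of_subset (Finset.subset_univ _), Finset.card_univ, Fintype.card_fin]
      omega
  · rintro ⟨A, hA, hk2⟩
    refine ⟨(Finset.univ : Finset (Fin (n + 1) × Fin (n + 1))).image (fun q => some (q, 0)) ∪
      (Finset.univ \ A).image (fun a => some ((a.castSucc, Fin.last n), 2)), ?_, ?_⟩
    · refine (Finset.card_union_le _ _).trans (add_le_add (Finset.card_image_le.trans ?_)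
        (Finset.card_image_le.trans ?_))
      · rw [Finset.card_univ, Fintype.card_prod, Fintype.card_fin]
      · rw [Finset.card_sdiff_of_subset (Finset.subset_univ _), Finset.card_univ,
          Fintype.card_fin]
        omega
    · refine res_of hn (fun q => Finset.mem_union_left _ (Finset.mem_image.2 ⟨q, by simp, rfl⟩)) ?_
      rintro ⟨a, b⟩ hq
      have hq' := hq
      unfold Ed isE at hq'
      simp only [Bool.and_eq_true, decide_eq_true_eq] at hq'
      obtain ⟨ha, hb, hab⟩ := hq'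
      have hadj : H.Adj ⟨a, ha⟩ ⟨b, hb⟩ := (hH ⟨a, ha⟩ ⟨b, hb⟩).1 hab
      have hor : (⟨a, ha⟩ : Fin n) ∉ A ∨ (⟨b, hb⟩ : Fin n) ∉ A := by
        by_contra hcon
        push Not at hcon
        exact hA hcon.1 hcon.2 hadj.ne hadj
      have hex : ∃ x : Fin n, x ∉ A ∧ ((x : ℕ) = a ∨ (x : ℕ) = b) := by
        rcases hor with h1 | h1
        · exact ⟨_, h1, Or.inl rfl⟩
        · exact ⟨_, h1, Or.inr rfl⟩
      obtain ⟨x, hx, hx2⟩ := hex
      refine ⟨some ((x.castSucc, Fin.last n), 2), Finset.mem_union_right _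
        (Finset.mem_image.2 ⟨x, by simp [hx], rfl⟩), ?_, a33 _ _ 2 (by decide)⟩
      rw [a22]
      exact Or.inl ⟨hq, by simp, by simpa using hx2⟩

end Pool.Agent.T6.H74.BD
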