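import Mathlib

/-!
# Broadcast dimension: definitions, and graphs with a universal vertex
-/

set_option autoImplicit false

namespace Pool.Agent.T6.H74.BD

open Finset

/-- `f` is a resolving broadcast of `G`: for all `x ≠ y` there is a vertex `z` with
`f z = i > 0` and `min (d (x, z)) (i + 1) ≠ min (d (y, z)) (i + 1)`; here `d` is the distance, which
is infinite between different components. -/
def Resolving {V : Type} (G : SimpleGraph V) (f : V → ℕ) : Prop :=
  ∀ x y : V, x ≠ y → ∃ z : V, 0 < f z ∧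
    min (G.edist x z) ((f z + 1 : ℕ) : ℕ∞) ≠ min (G.edist y z) ((f z + 1 : ℕ) : ℕ∞)

/-- The broadcast dimension: the least value of `∑ v, f v` for resolving broadcasts `f`. -/
noncomputable def bdim {V : Type} [Fintype V] (G : SimpleGraph V) : ℕ :=
  sInf {s : ℕ | ∃ f : V → ℕ, Resolving G f ∧ ∑ v, f v = s}

theorem one_resolving {V : Type} (G : SimpleGraph V) : Resolving G (fun _ => 1) := by
  intro x y hxy
  refine ⟨x, Nat.one_pos, ?_⟩
  rw [SimpleGraph.edist_self]
  have h : 0 < G.edist y x := SimpleGraph.edist_pos_of_ne hxy.symm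
  have h2 : (0 : ℕ∞) < min (G.edist y x) ((1 + 1 : ℕ) : ℕ∞) := by
    refine lt_min h ?_
    exact_mod_cast Nat.succ_pos 1
  intro h3
  rw [← h3] at h2
  simp at h2

theorem bdim_le_iff {V : Type} [Fintype V] (G : SimpleGraph V) (t : ℕ) :
    bdim G ≤ t ↔ ∃ f : V → ℕ, Resolving G f ∧ ∑ v, f v ≤ t := by
  constructor
  · intro h
    have hne : {s : ℕ | ∃ f : V → ℕ, Resolving G f ∧ ∑ v, f v = s}.Nonempty :=
      ⟨_, fun _ => 1, one_resolving G, rfl⟩
    obtain ⟨f, hf, hs⟩ := Nat.sInf_mem hne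
    exact ⟨f, hf, by rw [hs]; exact h⟩
  · rintro ⟨f, hf, hs⟩
    have h1 : (∑ v, f v) ∈ {s : ℕ | ∃ f : V → ℕ, Resolving G f ∧ ∑ v, f v = s} := ⟨f, hf, rfl⟩
    exact (Nat.sInf_le h1).trans hs

/-- `S` resolves all pairs of vertices by adjacency. -/
def Res {V : Type} (G : SimpleGraph V) (S : Finset V) : Prop :=
  ∀ x y : V, x ≠ y → ∃ z ∈ S, z = x ∨ z = y ∨ ¬ (G.Adj x z ↔ G.Adj y z)

theorem ed_adj {V : Type} {G : SimpleGraph V} {x z : V} (h : G.Adj x z) : G.edist x z = 1 :=
  SimpleGraph.edist_eq_one_iff_adj.2 h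

theorem ed_two {V : Type} {G : SimpleGraph V} {w : V} (hw : ∀ v, v ≠ w → G.Adj w v) {x z : V}
    (hxz : x ≠ z) (h : ¬ G.Adj x z) : G.edist x z = 2 := by
  have hx : x ≠ w := by
    rintro rfl
    exact h (hw z hxz.symm)
  have hz : z ≠ w := by
    rintro rfl
    exact h (hw x hxz).symm
  have h1 : G.edist x z ≤ 2 := by
    have := SimpleGraph.edist_triangle (G := G) (u := x) (v := w) (w := z)
    rw [ed_adj (hw x hx).symm, ed_adj (hw z hz)] at this
    exact this.trans (by norm_num)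
  have h2 : G.edist x z ≠ 0 := (SimpleGraph.edist_pos_of_ne hxz).ne'
  have h3 : G.edist x z ≠ 1 := fun h' => h (SimpleGraph.edist_eq_one_iff_adj.1 h')
  generalize G.edist x z = e at h1 h2 h3
  induction e using ENat.recTopCoe with
  | top => simp at h1
  | coe n =>
    have h1' : n ≤ 2 := by exact_mod_cast h1
    have h2' : n ≠ 0 := by exact_mod_cast h2
    have h3' : n ≠ 1 := by exact_mod_cast h3
    have : n = 2 := by omega
    rw [this]
    rfl

theorem ed_le {V : Type} {G : SimpleGraph V} {w : V} (hw : ∀ v, v ≠ w → G.Adj w v) (x z : V) :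
    G.edist x z ≤ 2 := by
  by_cases hxz : x = z
  · subst hxz; simp
  by_cases h : G.Adj x z
  · rw [ed_adj h]; norm_num
  · rw [ed_two hw hxz h]

theorem sep_iff {V : Type} {G : SimpleGraph V} {w : V} (hw : ∀ v, v ≠ w → G.Adj w v) {x y : V}
    (hxy : x ≠ y) (z : V) {i : ℕ} (hi : 0 < i) :
    min (G.edist x z) ((i + 1 : ℕ) : ℕ∞) ≠ min (G.edist y z) ((i + 1 : ℕ) : ℕ∞) ↔
      z = x ∨ z = y ∨ ¬ (G.Adj x z ↔ G.Adj y z) := by
  have h2 : (2 : ℕ∞) ≤ ((i + 1 : ℕ) : ℕ∞) := by exact_mod_cast (by omega : 2 ≤ i + 1)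
  rw [min_eq_left ((ed_le hw x z).trans h2), min_eq_left ((ed_le hw y z).trans h2)]
  by_cases h3 : z = x
  · subst h3
    simp only [SimpleGraph.edist_self, true_or, iff_true]
    exact (SimpleGraph.edist_pos_of_ne hxy.symm).ne
  by_cases h4 : z = y
  · subst h4
    simp only [SimpleGraph.edist_self, true_or, or_true, iff_true]
    exact (SimpleGraph.edist_pos_of_ne hxy).ne'
  have hx : x ≠ z := fun h => h3 h.symm
  have hy : y ≠ z := fun h => h4 h.symm
  by_cases h5 : G.Adj x z <;> by_cases h6 : G.Adj y z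
  · rw [ed_adj h5, ed_adj h6]; simp [h3, h4, h5, h6]
  · rw [ed_adj h5, ed_two hw hy h6]; simp [h3, h4, h5, h6]
  · rw [ed_two hw hx h5, ed_adj h6]; simp [h3, h4, h5, h6]
  · rw [ed_two hw hx h5, ed_two hw hy h6]; simp [h3, h4, h5, h6]

theorem exists_iff {V : Type} [Fintype V] {G : SimpleGraph V} {w : V}
    (hw : ∀ v, v ≠ w → G.Adj w v) (t : ℕ) :
    (∃ f : V → ℕ, Resolving G f ∧ ∑ v, f v ≤ t) ↔ ∃ S : Finset V, S.card ≤ t ∧ Res G S := by
  classical
  constructor
  · rintro ⟨f, hf, hs⟩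
    refine ⟨Finset.univ.filter fun v => 0 < f v, ?_, ?_⟩
    · refine le_trans ?_ hs
      calc (Finset.univ.filter fun v => 0 < f v).card
          = ∑ v ∈ Finset.univ.filter (fun v => 0 < f v), 1 := by simp
        _ ≤ ∑ v ∈ Finset.univ.filter (fun v => 0 < f v), f v := by
            refine Finset.sum_le_sum fun v hv => ?_
            exact (Finset.mem_filter.1 hv).2
        _ ≤ ∑ v, f v := Finset.sum_le_sum_of_subset (Finset.filter_subset _ _)
    · intro x y hxy
      obtain ⟨z, hz, h⟩ := hf x y hxy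
      exact ⟨z, by simp [hz], (sep_iff hw hxy z hz).1 h⟩
  · rintro ⟨S, hS, hR⟩
    refine ⟨fun v => if v ∈ S then 1 else 0, ?_, by simpa using hS⟩
    intro x y hxy
    obtain ⟨z, hz, h⟩ := hR x y hxy
    refine ⟨z, by simp [hz], ?_⟩
    simp only [hz, if_true]
    exact (sep_iff hw hxy z Nat.one_pos).2 h

theorem res_comap {V W : Type} [Fintype V] [Fintype W] (e : V ≃ W) (G : SimpleGraph W) (t : ℕ) :
    (∃ S : Finset V, S.card ≤ t ∧ Res (G.comap e) S) ↔ ∃ S : Finset W, S.card ≤ t ∧ Res G S := by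
  constructor
  · rintro ⟨S, hS, hR⟩
    refine ⟨S.map e.toEmbedding, by simpa using hS, ?_⟩
    intro x y hxy
    obtain ⟨z, hz, h⟩ := hR (e.symm x) (e.symm y) (fun h => hxy (e.symm.injective h))
    refine ⟨e z, by simpa using hz, ?_⟩
    rcases h with h | h | h
    · exact Or.inl (by rw [h]; simp)
    · exact Or.inr (Or.inl (by rw [h]; simp))
    · refine Or.inr (Or.inr ?_)
      simpa [SimpleGraph.comap_adj] using h
  · rintro ⟨S, hS, hR⟩
    refine ⟨S.map e.symm.toEmbedding, by simpa using hS, ?_⟩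
    intro x y hxy
    obtain ⟨z, hz, h⟩ := hR (e x) (e y) (fun h => hxy (e.injective h))
    refine ⟨e.symm z, by simpa using hz, ?_⟩
    rcases h with h | h | h
    · exact Or.inl (by rw [h]; simp)
    · exact Or.inr (Or.inl (by rw [h]; simp))
    · refine Or.inr (Or.inr ?_)
      simpa [SimpleGraph.comap_adj] using h

end Pool.Agent.T6.H74.BD
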