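import Pool.Agent.T6.H74.BD.Dim

/-!
# The reduction: from vertex cover to resolving sets in graphs with a universal vertex

For each pair `q = (a, b)` of numbers at most `n` there are four vertices: two twins (kinds `0`,
`1`), which force one element of the set each and mark the other two vertices (kinds `2`, `3`) of
`q`. The twins of `(n, n)` distinguish the vertices of kinds `2` and `3`, unless `q` is an edge; in
this case only the ends of the edge (the vertices of kind `2` of `(a, n)` and of `(b, n)`) do it.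
-/

set_option autoImplicit false

namespace Pool.Agent.T6.H74.BD

open Finset

/-- `(a, b)` is an edge -/
def isE (h : ℕ → ℕ → Bool) (n a b : ℕ) : Bool := decide (a < n) && (decide (b < n) && h a b)

/-- the adjacency (to be made symmetric) -/
def nb (h : ℕ → ℕ → Bool) (n a b c a' b' c' : ℕ) : Bool :=
  (decide (c < 2) && (decide (c' < 2) && !(decide (a = a') && decide (b = b')))) ||
  ((decide (c < 2) && (decide (2 ≤ c') &&
    (decide (a = a') && (decide (b = b') && !(decide (a = n) && decide (b = n)))))) ||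
  ((decide (c < 2) && (decide (c' = 2) && (decide (a = n) && (decide (b = n) &&
    !isE h n a' b')))) ||
  (decide (c = 2) && (decide (c' = 2) && (isE h n a b && (decide (b' = n) &&
    (decide (a' = a) || decide (a' = b))))))))

/-- the vertices -/
abbrev X (n : ℕ) : Type := Option ((Fin (n + 1) × Fin (n + 1)) × Fin 4)

/-- the adjacency of the new graph -/
def adj (h : ℕ → ℕ → Bool) (n : ℕ) : X n → X n → Prop
  | none, none => False
  | none, some _ => True
  | some _, none => True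
  | some u, some v => nb h n u.1.1 u.1.2 u.2 v.1.1 v.1.2 v.2 = true ∨
      nb h n v.1.1 v.1.2 v.2 u.1.1 u.1.2 u.2 = true

theorem nb_self (h : ℕ → ℕ → Bool) (n a b c : ℕ) : nb h n a b c a b c = false := by
  unfold nb isE
  rcases Nat.lt_or_ge c 2 with h1 | h1
  · have h2 : ¬ 2 ≤ c := by omega
    have h3 : c ≠ 2 := by omega
    simp [h1, h2, h3]
  · have h2 : ¬ c < 2 := by omega
    simp only [h2, decide_false, Bool.false_and, Bool.false_or]
    by_cases h3 : b < n
    · have h4 : b ≠ n := by omega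
      simp [h4]
    · simp [h3]

/-- the new graph -/
def gg (h : ℕ → ℕ → Bool) (n : ℕ) : SimpleGraph (X n) where
  Adj := adj h n
  symm := ⟨by
    rintro (_ | u) (_ | v) hh
    · exact hh
    · trivial
    · trivial
    · exact Or.symm hh⟩
  loopless := ⟨by
    rintro (_ | u) hh
    · exact hh
    · rcases hh with hh | hh <;> rw [nb_self] at hh <;> exact absurd hh (by decide)⟩

variable {h : ℕ → ℕ → Bool} {n : ℕ}

theorem gg_none (v : X n) (hv : v ≠ none) : (gg h n).Adj none v := by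
  rcases v with _ | v
  · exact absurd rfl hv
  · trivial

/-- the special index -/
def st (n : ℕ) : Fin (n + 1) × Fin (n + 1) := (Fin.last n, Fin.last n)

/-- the index `q` is an edge -/
def Ed (h : ℕ → ℕ → Bool) (n : ℕ) (q : Fin (n + 1) × Fin (n + 1)) : Prop :=
  isE h n q.1 q.2 = true

theorem eq_iff (q r : Fin (n + 1) × Fin (n + 1)) : q = r ↔ (q.1 : ℕ) = r.1 ∧ (q.2 : ℕ) = r.2 := by
  rw [Prod.ext_iff, Fin.ext_iff, Fin.ext_iff]

theorem st_iff (q : Fin (n + 1) × Fin (n + 1)) : q = st n ↔ (q.1 : ℕ) = n ∧ (q.2 : ℕ) = n := by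
  rw [eq_iff]; simp [st]

theorem a11 (q r : Fin (n + 1) × Fin (n + 1)) {c d : Fin 4} (hc : (c : ℕ) < 2)
    (hd : (d : ℕ) < 2) : (gg h n).Adj (some (q, c)) (some (r, d)) ↔ q ≠ r := by
  have h1 : ¬ 2 ≤ (c : ℕ) := by omega
  have h2 : ¬ 2 ≤ (d : ℕ) := by omega
  have h3 : (c : ℕ) ≠ 2 := by omega
  have h4 : (d : ℕ) ≠ 2 := by omega
  change nb _ _ _ _ _ _ _ _ = true ∨ nb _ _ _ _ _ _ _ _ = true ↔ _
  unfold nb
  rw [ne_eq, eq_iff]
  simp only [hc, hd, h1, h2, h3, h4, decide_true, decide_false, Bool.true_and, Bool.false_and,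
    Bool.or_false, Bool.not_eq_true', Bool.and_eq_false_iff, decide_eq_false_iff_not]
  constructor
  · rintro (h | h) ⟨e1, e2⟩
    · rcases h with h | h
      · exact h e1
      · exact h e2
    · rcases h with h | h
      · exact h e1.symm
      · exact h e2.symm
  · intro hh
    left
    by_cases e1 : (q.1 : ℕ) = r.1
    · exact Or.inr fun e2 => hh ⟨e1, e2⟩
    · exact Or.inl e1

theorem a12 (q r : Fin (n + 1) × Fin (n + 1)) {c : Fin 4} (hc : (c : ℕ) < 2) :
    (gg h n).Adj (some (q, c)) (some (r, 2)) ↔ (q = r ∧ q ≠ st n) ∨ (q = st n ∧ ¬ Ed h n r) := by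
  have h1 : ¬ 2 ≤ (c : ℕ) := by omega
  have h3 : (c : ℕ) ≠ 2 := by omega
  change nb _ _ _ _ _ _ _ _ = true ∨ nb _ _ _ _ _ _ _ _ = true ↔ _
  unfold nb Ed
  rw [ne_eq, st_iff, eq_iff]
  have e2 : ((2 : Fin 4) : ℕ) = 2 := rfl
  simp only [e2, hc, h1, h3, decide_true, decide_false, Bool.true_and, Bool.false_and,
    Bool.and_false, lt_irrefl, le_refl, Bool.false_or, Bool.or_false, Bool.or_eq_true, Bool.and_eq_true,
    decide_eq_true_eq, Bool.not_eq_true', Bool.and_eq_false_iff, decide_eq_false_iff_not,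
    Bool.not_eq_true, Bool.false_eq_true, or_false]
  tauto

theorem a13 (q r : Fin (n + 1) × Fin (n + 1)) {c : Fin 4} (hc : (c : ℕ) < 2) :
    (gg h n).Adj (some (q, c)) (some (r, 3)) ↔ q = r ∧ q ≠ st n := by
  have h1 : ¬ 2 ≤ (c : ℕ) := by omega
  have h3 : (c : ℕ) ≠ 2 := by omega
  change nb _ _ _ _ _ _ _ _ = true ∨ nb _ _ _ _ _ _ _ _ = true ↔ _
  unfold nb
  rw [ne_eq, st_iff, eq_iff]
  have e2 : ((3 : Fin 4) : ℕ) = 3 := rfl
  simp only [e2, hc, h1, h3, decide_true, decide_false, Bool.true_and, Bool.false_and,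
    Bool.and_false, Bool.false_or, Bool.or_false, Bool.or_eq_true, Bool.and_eq_true,
    decide_eq_true_eq, Bool.not_eq_true', Bool.and_eq_false_iff, decide_eq_false_iff_not,
    Nat.reduceLT, Nat.reduceLeDiff, Nat.reduceEqDiff, Bool.false_eq_true, or_false]
  tauto

theorem a22 (q r : Fin (n + 1) × Fin (n + 1)) :
    (gg h n).Adj (some (q, 2)) (some (r, 2)) ↔
      (Ed h n q ∧ (r.2 : ℕ) = n ∧ ((r.1 : ℕ) = q.1 ∨ (r.1 : ℕ) = q.2)) ∨
      (Ed h n r ∧ (q.2 : ℕ) = n ∧ ((q.1 : ℕ) = r.1 ∨ (q.1 : ℕ) = r.2)) := by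
  change nb _ _ _ _ _ _ _ _ = true ∨ nb _ _ _ _ _ _ _ _ = true ↔ _
  unfold nb Ed
  have e2 : ((2 : Fin 4) : ℕ) = 2 := rfl
  simp only [e2, decide_true, decide_false, Bool.true_and, Bool.false_and,
    lt_irrefl, Bool.false_or, Bool.or_eq_true, Bool.and_eq_true,
    decide_eq_true_eq]

theorem a33 (q r : Fin (n + 1) × Fin (n + 1)) (c : Fin 4) (hc : 2 ≤ (c : ℕ)) :
    ¬ (gg h n).Adj (some (q, 3)) (some (r, c)) := by
  change ¬ (nb _ _ _ _ _ _ _ _ = true ∨ nb _ _ _ _ _ _ _ _ = true)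
  unfold nb
  have e2 : ((3 : Fin 4) : ℕ) = 3 := rfl
  have h1 : ¬ (c : ℕ) < 2 := by omega
  simp [e2, h1]

end Pool.Agent.T6.H74.BD
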